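import Mathlib
import Pool.Agent.Helper25.PCap.GoalsP
import Pool.Agent.Helper25.PCap.GoalsF

/-!
Divergence identity (packet P8 of helper25, MP_576c25_an).
-/

set_option autoImplicit false

open MeasureTheory Set Filter Topology
open scoped ContDiff Real

noncomputable section

namespace Pool.Agent.Helper73.PC

open Pool.Agent.Helper25.PCap

theorem hasD1 {f : ℝ × ℝ → ℝ} {z : ℝ × ℝ} (h : DifferentiableAt ℝ f z) :
    HasDerivAt (fun t => f (t, z.2)) (D1 f z) z.1 := by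
  have h1 : HasDerivAt (fun t : ℝ => ((t, z.2) : ℝ × ℝ)) (1, 0) z.1 :=
    (hasDerivAt_id z.1).prodMk (hasDerivAt_const z.1 z.2)
  exact h.hasFDerivAt.comp_hasDerivAt z.1 h1

theorem hasD2 {f : ℝ × ℝ → ℝ} {z : ℝ × ℝ} (h : DifferentiableAt ℝ f z) :
    HasDerivAt (fun t => f (z.1, t)) (D2 f z) z.2 := by
  have h1 : HasDerivAt (fun t : ℝ => ((z.1, t) : ℝ × ℝ)) (0, 1) z.2 :=
    (hasDerivAt_const z.2 z.1).prodMk (hasDerivAt_id z.2)
  exact h.hasFDerivAt.comp_hasDerivAt z.2 h1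

theorem fderiv_split (f : ℝ × ℝ → ℝ) (z : ℝ × ℝ) (a b : ℝ) :
    fderiv ℝ f z (a, b) = a * D1 f z + b * D2 f z := by
  have : ((a, b) : ℝ × ℝ) = a • ((1, 0) : ℝ × ℝ) + b • ((0, 1) : ℝ × ℝ) := by
    ext <;> simp
  rw [this, map_add, map_smul, map_smul]
  rfl

theorem D1_contDiffOn {f : ℝ × ℝ → ℝ} {V : Set (ℝ × ℝ)} (hV : IsOpen V)
    (h : ContDiffOn ℝ ∞ f V) : ContDiffOn ℝ ∞ (D1 f) V := by
  have h1 : ContDiffOn ℝ ∞ (fun z => fderiv ℝ f z) V := h.fderiv_of_isOpen hV (by simp)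
  exact h1.clm_apply contDiffOn_const

theorem D2_contDiffOn {f : ℝ × ℝ → ℝ} {V : Set (ℝ × ℝ)} (hV : IsOpen V)
    (h : ContDiffOn ℝ ∞ f V) : ContDiffOn ℝ ∞ (D2 f) V := by
  have h1 : ContDiffOn ℝ ∞ (fun z => fderiv ℝ f z) V := h.fderiv_of_isOpen hV (by simp)
  exact h1.clm_apply contDiffOn_const

theorem D1_contOn {f : ℝ × ℝ → ℝ} {V : Set (ℝ × ℝ)} (hV : IsOpen V)
    (h : ContDiffOn ℝ 1 f V) : ContinuousOn (D1 f) V := by
  have h1 : ContinuousOn (fun z => fderiv ℝ f z) V := h.continuousOn_fderiv_of_isOpen hV le_rfl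
  exact h1.clm_apply continuousOn_const

theorem D2_contOn {f : ℝ × ℝ → ℝ} {V : Set (ℝ × ℝ)} (hV : IsOpen V)
    (h : ContDiffOn ℝ 1 f V) : ContinuousOn (D2 f) V := by
  have h1 : ContinuousOn (fun z => fderiv ℝ f z) V := h.continuousOn_fderiv_of_isOpen hV le_rfl
  exact h1.clm_apply continuousOn_const

theorem per_D2 {f : ℝ × ℝ → ℝ} (hper : ∀ τ θ, f (τ, θ + 2 * π) = f (τ, θ)) (τ θ : ℝ) :
    D2 f (τ, θ + 2 * π) = D2 f (τ, θ) := by
  have h1 : (fun z : ℝ × ℝ => f (z + (0, 2 * π))) = f := by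
    funext z
    have := hper z.1 z.2
    have e : z + (0, 2 * π) = (z.1, z.2 + 2 * π) := by ext <;> simp
    rw [e, this]
  have h2 := fderiv_comp_add_right (𝕜 := ℝ) (f := f) (x := ((τ, θ) : ℝ × ℝ)) ((0, 2 * π) : ℝ × ℝ)
  rw [h1] at h2
  unfold D2
  rw [h2]
  have e : ((τ, θ) : ℝ × ℝ) + (0, 2 * π) = (τ, θ + 2 * π) := by ext <;> simp
  rw [e]

/-- projection on `[0,1]` -/
def pr (r : ℝ) : ℝ := max 0 (min r 1)

theorem pr_cont : Continuous pr := by unfold pr; fun_prop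

theorem pr_mem (r : ℝ) : 0 ≤ pr r ∧ pr r ≤ 1 := by
  unfold pr
  exact ⟨le_max_left _ _, max_le zero_le_one (min_le_right _ _)⟩

theorem pr_id {r : ℝ} (h0 : 0 ≤ r) (h1 : r ≤ 1) : pr r = r := by
  unfold pr
  rw [min_eq_left h1, max_eq_right h0]

/-- The integral of `D2 F` over the region `-M ≤ τ ≤ T θ`. -/
theorem area_D2 {V : Set (ℝ × ℝ)} (hV : IsOpen V) {F : ℝ × ℝ → ℝ} (hF : ContDiffOn ℝ 1 F V)
    {T T' : ℝ → ℝ} {M : ℝ} (hM : ∀ θ, -M ≤ T θ) (hVT : ∀ z : ℝ × ℝ, z.1 ≤ T z.2 → z ∈ V)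
    (hT : ∀ θ, HasDerivAt T (T' θ) θ) (hT' : Continuous T')
    (hTper : T (2 * π) = T 0) (hFper : ∀ τ, F (τ, 2 * π) = F (τ, 0)) :
    Continuous (fun θ => ∫ τ in (-M)..(T θ), D2 F (τ, θ)) ∧
    ∫ θ in (0 : ℝ)..(2 * π), ∫ τ in (-M)..(T θ), D2 F (τ, θ) =
      -∫ θ in (0 : ℝ)..(2 * π), T' θ * F (T θ, θ) := by
  have hTc : Continuous T := continuous_iff_continuousAt.2 fun θ => (hT θ).continuousAt
  have hF1c := D1_contOn hV hF
  have hF2c := D2_contOn hV hF
  have hFd : ∀ z ∈ V, DifferentiableAt ℝ F z := fun z hz =>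
    (hF.contDiffAt (hV.mem_nhds hz)).differentiableAt (by norm_num)
  -- the point
  have hΦ : ∀ r θ : ℝ, 0 ≤ r → r ≤ 1 → (((T θ + M) * r + (-M), θ) : ℝ × ℝ) ∈ V := by
    intro r θ h0 h1
    apply hVT
    show (T θ + M) * r + (-M) ≤ T θ
    have := hM θ
    nlinarith
  -- `P`
  let P : ℝ → ℝ → ℝ := fun r θ =>
    T' θ * F ((T θ + M) * r + (-M), θ) +
      (T θ + M) * (T' θ * r * D1 F ((T θ + M) * r + (-M), θ) + D2 F ((T θ + M) * r + (-M), θ))
  have hPder : ∀ r θ : ℝ, 0 ≤ r → r ≤ 1 →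
      HasDerivAt (fun θ => (T θ + M) * F ((T θ + M) * r + (-M), θ)) (P r θ) θ := by
    intro r θ h0 h1
    have a1 : HasDerivAt (fun θ => T θ + M) (T' θ) θ := (hT θ).add_const M
    have a2 : HasDerivAt (fun θ : ℝ => (((T θ + M) * r + (-M), θ) : ℝ × ℝ)) (T' θ * r, 1) θ :=
      ((a1.mul_const r).add_const (-M)).prodMk (hasDerivAt_id θ)
    have a3 : HasDerivAt (fun θ : ℝ => F ((T θ + M) * r + (-M), θ))
        (fderiv ℝ F ((T θ + M) * r + (-M), θ) (T' θ * r, 1)) θ :=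
      HasFDerivAt.comp_hasDerivAt (f := fun θ : ℝ => (((T θ + M) * r + (-M), θ) : ℝ × ℝ)) θ
        (hFd _ (hΦ r θ h0 h1)).hasFDerivAt a2
    rw [fderiv_split] at a3
    have a4 := a1.mul a3
    refine a4.congr_deriv ?_
    simp only [P]
    ring
  have hΦc : Continuous (fun x : ℝ × ℝ => (((T x.1 + M) * pr x.2 + (-M), x.1) : ℝ × ℝ)) := by
    have := pr_cont
    fun_prop
  have hPc : Continuous (fun x : ℝ × ℝ => P (pr x.2) x.1) := by
    have c0 : Continuous (fun x : ℝ × ℝ => F ((T x.1 + M) * pr x.2 + (-M), x.1)) :=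
      hF.continuousOn.comp_continuous hΦc (fun x => hΦ _ _ (pr_mem _).1 (pr_mem _).2)
    have c1 : Continuous (fun x : ℝ × ℝ => D1 F ((T x.1 + M) * pr x.2 + (-M), x.1)) :=
      hF1c.comp_continuous hΦc (fun x => hΦ _ _ (pr_mem _).1 (pr_mem _).2)
    have c2 : Continuous (fun x : ℝ × ℝ => D2 F ((T x.1 + M) * pr x.2 + (-M), x.1)) :=
      hF2c.comp_continuous hΦc (fun x => hΦ _ _ (pr_mem _).1 (pr_mem _).2)
    have hT1 : Continuous (fun x : ℝ × ℝ => T x.1 + M) := by fun_prop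
    have hT2 : Continuous (fun x : ℝ × ℝ => T' x.1) := hT'.comp continuous_fst
    have hp : Continuous (fun x : ℝ × ℝ => pr x.2) := pr_cont.comp continuous_snd
    exact (hT2.mul c0).add (hT1.mul (((hT2.mul hp).mul c1).add c2))
  -- inner identity
  have hin : ∀ θ, ∫ τ in (-M)..(T θ), D2 F (τ, θ) =
      (∫ r in (0 : ℝ)..1, P (pr r) θ) - T' θ * F (T θ, θ) := by
    intro θ
    have e1 : ∫ τ in (-M)..(T θ), D2 F (τ, θ) =
        ∫ r in (0 : ℝ)..1, (T θ + M) * D2 F ((T θ + M) * r + (-M), θ) := by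
      rw [intervalIntegral.integral_const_mul]
      rw [intervalIntegral.mul_integral_comp_mul_add (f := fun τ => D2 F (τ, θ))]
      congr 1 <;> ring
    have cΦ : Continuous (fun r : ℝ => (((T θ + M) * pr r + (-M), θ) : ℝ × ℝ)) := by
      have := pr_cont
      fun_prop
    have c0 : Continuous (fun r : ℝ => F ((T θ + M) * pr r + (-M), θ)) :=
      hF.continuousOn.comp_continuous cΦ (fun x => hΦ _ _ (pr_mem _).1 (pr_mem _).2)
    have c1 : Continuous (fun r : ℝ => D1 F ((T θ + M) * pr r + (-M), θ)) :=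
      hF1c.comp_continuous cΦ (fun x => hΦ _ _ (pr_mem _).1 (pr_mem _).2)
    have c2 : Continuous (fun r : ℝ => D2 F ((T θ + M) * pr r + (-M), θ)) :=
      hF2c.comp_continuous cΦ (fun x => hΦ _ _ (pr_mem _).1 (pr_mem _).2)
    have cpr := pr_cont
    have e2 : ∫ r in (0 : ℝ)..1, (T θ + M) * D2 F ((T θ + M) * r + (-M), θ) =
        ∫ r in (0 : ℝ)..1, (P (pr r) θ - T' θ * (F ((T θ + M) * pr r + (-M), θ) +
          pr r * ((T θ + M) * D1 F ((T θ + M) * pr r + (-M), θ)))) := by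
      apply intervalIntegral.integral_congr
      intro r hr
      rw [uIcc_of_le zero_le_one] at hr
      simp only [P, pr_id hr.1 hr.2]
      ring
    have cP : Continuous (fun r : ℝ => P (pr r) θ) :=
      (continuous_const.mul c0).add (continuous_const.mul (((continuous_const.mul cpr).mul c1).add c2))
    have cQ : Continuous (fun r : ℝ => F ((T θ + M) * pr r + (-M), θ) +
          pr r * ((T θ + M) * D1 F ((T θ + M) * pr r + (-M), θ))) :=
      c0.add (cpr.mul (continuous_const.mul c1))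
    have e3 : ∫ r in (0 : ℝ)..1, (F ((T θ + M) * pr r + (-M), θ) +
          pr r * ((T θ + M) * D1 F ((T θ + M) * pr r + (-M), θ))) = F (T θ, θ) := by
      have e4 : ∫ r in (0 : ℝ)..1, (F ((T θ + M) * pr r + (-M), θ) +
          pr r * ((T θ + M) * D1 F ((T θ + M) * pr r + (-M), θ))) =
          1 * F ((T θ + M) * 1 + (-M), θ) - 0 * F ((T θ + M) * 0 + (-M), θ) := by
        apply intervalIntegral.integral_eq_sub_of_hasDerivAt
          (f := fun r => r * F ((T θ + M) * r + (-M), θ))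
        · intro r hr
          rw [uIcc_of_le zero_le_one] at hr
          rw [pr_id hr.1 hr.2]
          have a2 : HasDerivAt (fun r : ℝ => (((T θ + M) * r + (-M), θ) : ℝ × ℝ))
              ((T θ + M), 0) r := by
            have a3 : HasDerivAt (fun r : ℝ => (T θ + M) * r + (-M)) (T θ + M) r := by
              simpa using ((hasDerivAt_id r).const_mul (T θ + M)).add_const (-M)
            exact a3.prodMk (hasDerivAt_const r θ)
          have a3 := (hFd _ (hΦ r θ hr.1 hr.2)).hasFDerivAt.comp_hasDerivAt r a2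
          rw [fderiv_split] at a3
          have a4 := (hasDerivAt_id r).mul a3
          refine a4.congr_deriv ?_
          simp only [Function.comp, id]
          ring
        · exact cQ.intervalIntegrable _ _
      rw [e4]
      have : (T θ + M) * 1 + (-M) = T θ := by ring
      rw [this]
      ring
    rw [e1, e2, intervalIntegral.integral_sub]
    · rw [intervalIntegral.integral_const_mul, e3]
    · exact cP.intervalIntegrable _ _
    · exact (continuous_const.mul cQ).intervalIntegrable _ _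
  have hcont1 : Continuous (fun θ => ∫ r in (0 : ℝ)..1, P (pr r) θ) :=
    intervalIntegral.continuous_parametric_intervalIntegral_of_continuous'
      (f := fun θ r => P (pr r) θ) hPc 0 1
  have hcont2 : Continuous (fun θ => T' θ * F (T θ, θ)) := by
    apply hT'.mul
    exact hF.continuousOn.comp_continuous (by fun_prop) (fun θ => hVT _ le_rfl)
  refine ⟨?_, ?_⟩
  · simp_rw [hin]
    exact hcont1.sub hcont2
  · simp_rw [hin]
    rw [intervalIntegral.integral_sub (hcont1.intervalIntegrable _ _)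
      (hcont2.intervalIntegrable _ _)]
    have hswap : ∫ θ in (0 : ℝ)..(2 * π), ∫ r in (0 : ℝ)..1, P (pr r) θ =
        ∫ r in (0 : ℝ)..1, ∫ θ in (0 : ℝ)..(2 * π), P (pr r) θ := by
      apply intervalIntegral_intervalIntegral_swap (F := fun θ r => P (pr r) θ)
      have : IntegrableOn (fun x : ℝ × ℝ => P (pr x.2) x.1)
          (uIcc (0 : ℝ) (2 * π) ×ˢ uIcc (0 : ℝ) 1) :=
        hPc.continuousOn.integrableOn_compact (isCompact_uIcc.prod isCompact_uIcc)
      exact this.mono_set (prod_mono uIoc_subset_uIcc uIoc_subset_uIcc)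
    have hzero : ∀ r : ℝ, ∫ θ in (0 : ℝ)..(2 * π), P (pr r) θ = 0 := by
      intro r
      have e5 : ∫ θ in (0 : ℝ)..(2 * π), P (pr r) θ =
          (T (2 * π) + M) * F ((T (2 * π) + M) * pr r + (-M), 2 * π) -
          (T 0 + M) * F ((T 0 + M) * pr r + (-M), 0) := by
        apply intervalIntegral.integral_eq_sub_of_hasDerivAt
          (f := fun θ => (T θ + M) * F ((T θ + M) * pr r + (-M), θ))
        · intro θ _
          exact hPder (pr r) θ (pr_mem r).1 (pr_mem r).2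
        · apply Continuous.intervalIntegrable
          exact hPc.comp (by fun_prop : Continuous (fun θ : ℝ => ((θ, r) : ℝ × ℝ)))
      rw [e5, hTper, hFper, sub_self]
    rw [hswap]
    simp_rw [hzero]
    simp

theorem pkP8 (hc : GCU0) (h2 : GP2) : GP8 := by
  intro κ hκ hκ1 C ψ M hψ hψper hM
  obtain ⟨huC, hLL, -, -, -, -, huper, hu1, hupos⟩ := hc κ hκ hκ1 C
  obtain ⟨-, -, hlev1, -, -, hder, -, -⟩ := h2 κ hκ hκ1 C
  have hV := C.Vopen
  have hT : ∀ θ, HasDerivAt C.T (-(D2 C.u (C.T θ, θ) / D1 C.u (C.T θ, θ))) θ := by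
    intro θ
    have h := hder 1 θ one_pos le_rfl
    have e : C.lev 1 = C.T := funext hlev1
    rw [e] at h
    exact h
  have hTc := C.Tcont
  have hD1u := D1_contDiffOn hV huC
  have hD2u := D2_contDiffOn hV huC
  have hcT : Continuous (fun θ : ℝ => ((C.T θ, θ) : ℝ × ℝ)) := by fun_prop
  have hcT1 : Continuous (fun θ : ℝ => D1 C.u (C.T θ, θ)) :=
    hD1u.continuousOn.comp_continuous hcT (fun θ => C.VT _ le_rfl)
  have hcT2 : Continuous (fun θ : ℝ => D2 C.u (C.T θ, θ)) :=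
    hD2u.continuousOn.comp_continuous hcT (fun θ => C.VT _ le_rfl)
  have hcψ : Continuous (fun θ : ℝ => ψ (C.T θ, θ)) :=
    hψ.continuousOn.comp_continuous hcT (fun θ => C.VT _ le_rfl)
  have hne : ∀ θ, D1 C.u (C.T θ, θ) ≠ 0 := fun θ => (hupos _ le_rfl).ne'
  have hT'c : Continuous (fun θ => -(D2 C.u (C.T θ, θ) / D1 C.u (C.T θ, θ))) :=
    (hcT2.div hcT1 hne).neg
  have hcM : Continuous (fun θ : ℝ => ((-M, θ) : ℝ × ℝ)) := by fun_prop
  have hMV : ∀ θ : ℝ, ((-M, θ) : ℝ × ℝ) ∈ C.V := fun θ => C.VT _ (hM θ)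
  -- the fields
  let F1 : ℝ × ℝ → ℝ := fun z => Real.exp (-((1 - κ) * z.1)) * D1 C.u z * ψ z / κ
  let F2 : ℝ × ℝ → ℝ := fun z => Real.exp (-((1 - κ) * z.1)) * D2 C.u z * ψ z
  have hexp : ContDiffOn ℝ 1 (fun z : ℝ × ℝ => Real.exp (-((1 - κ) * z.1))) C.V := by
    apply ContDiff.contDiffOn
    fun_prop
  have hD1u1 : ContDiffOn ℝ 1 (D1 C.u) C.V := hD1u.of_le (by norm_num)
  have hD2u1 : ContDiffOn ℝ 1 (D2 C.u) C.V := hD2u.of_le (by norm_num)
  have hF1 : ContDiffOn ℝ 1 F1 C.V := ((hexp.mul hD1u1).mul hψ).div_const κ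
  have hF2 : ContDiffOn ℝ 1 F2 C.V := (hexp.mul hD2u1).mul hψ
  have hdf : ∀ {f : ℝ × ℝ → ℝ}, ContDiffOn ℝ 1 f C.V → ∀ z ∈ C.V, DifferentiableAt ℝ f z :=
    fun h z hz => (h.contDiffAt (hV.mem_nhds hz)).differentiableAt (by norm_num)
  have hdiv : ∀ z ∈ C.V, D1 F1 z + D2 F2 z = Real.exp (-((1 - κ) * z.1)) *
      (D1 C.u z * D1 ψ z / κ + D2 C.u z * D2 ψ z) := by
    intro z hz
    have a1 : D1 F1 z = (-(1 - κ) * Real.exp (-((1 - κ) * z.1)) * D1 C.u z * ψ z +
        Real.exp (-((1 - κ) * z.1)) * D1 (D1 C.u) z * ψ z +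
        Real.exp (-((1 - κ) * z.1)) * D1 C.u z * D1 ψ z) / κ := by
      have b1 := hasD1 (hdf hF1 z hz)
      have b2 := hasD1 (hdf hD1u1 z hz)
      have b3 := hasD1 (hdf hψ z hz)
      have b4 : HasDerivAt (fun t : ℝ => Real.exp (-((1 - κ) * t)))
          (Real.exp (-((1 - κ) * z.1)) * (-(1 - κ))) z.1 := by
        have := ((hasDerivAt_id z.1).const_mul (1 - κ)).neg.exp
        simpa using this
      have b5 := ((b4.mul b2).mul b3).div_const κ
      have b6 : HasDerivAt (fun t => F1 (t, z.2)) _ z.1 := b5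
      rw [b1.unique b6]
      simp only [Prod.mk.eta, Pi.mul_apply]
      ring
    have a2 : D2 F2 z = Real.exp (-((1 - κ) * z.1)) * D2 (D2 C.u) z * ψ z +
        Real.exp (-((1 - κ) * z.1)) * D2 C.u z * D2 ψ z := by
      have b1 := hasD2 (hdf hF2 z hz)
      have b2 := hasD2 (hdf hD2u1 z hz)
      have b3 := hasD2 (hdf hψ z hz)
      have b5 := ((b2.const_mul (Real.exp (-((1 - κ) * z.1)))).mul b3)
      have b6 : HasDerivAt (fun t => F2 (z.1, t)) _ z.2 := b5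
      rw [b1.unique b6]
    have a3 := hLL z hz
    unfold LL at a3
    rw [a1, a2]
    have a4 : D1 (D1 C.u) z = (1 - κ) * D1 C.u z - κ * D2 (D2 C.u) z := by linarith
    rw [a4]
    field_simp
    ring
  have hseg : ∀ θ τ : ℝ, τ ∈ uIcc (-M) (C.T θ) → ((τ, θ) : ℝ × ℝ) ∈ C.V := by
    intro θ τ hτ
    rw [uIcc_of_le (hM θ)] at hτ
    exact C.VT _ hτ.2
  have hcl : ∀ θ : ℝ, ContinuousOn (fun τ : ℝ => ((τ, θ) : ℝ × ℝ)) (uIcc (-M) (C.T θ)) := by
    intro θ
    exact (by fun_prop : Continuous (fun τ : ℝ => ((τ, θ) : ℝ × ℝ))).continuousOn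
  have hint1 : ∀ θ : ℝ, IntervalIntegrable (fun τ => D1 F1 (τ, θ)) volume (-M) (C.T θ) := by
    intro θ
    apply ContinuousOn.intervalIntegrable
    exact (D1_contOn hV hF1).comp (hcl θ) (hseg θ)
  have hint2 : ∀ θ : ℝ, IntervalIntegrable (fun τ => D2 F2 (τ, θ)) volume (-M) (C.T θ) := by
    intro θ
    apply ContinuousOn.intervalIntegrable
    exact (D2_contOn hV hF2).comp (hcl θ) (hseg θ)
  have hinner : ∀ θ : ℝ, ∫ τ in (-M)..(C.T θ), Real.exp (-((1 - κ) * τ)) *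
      (D1 C.u (τ, θ) * D1 ψ (τ, θ) / κ + D2 C.u (τ, θ) * D2 ψ (τ, θ)) =
      (F1 (C.T θ, θ) - F1 (-M, θ)) + ∫ τ in (-M)..(C.T θ), D2 F2 (τ, θ) := by
    intro θ
    have e1 : ∫ τ in (-M)..(C.T θ), Real.exp (-((1 - κ) * τ)) *
      (D1 C.u (τ, θ) * D1 ψ (τ, θ) / κ + D2 C.u (τ, θ) * D2 ψ (τ, θ)) =
        ∫ τ in (-M)..(C.T θ), (D1 F1 (τ, θ) + D2 F2 (τ, θ)) := by
      apply intervalIntegral.integral_congr
      intro τ hτ
      exact (hdiv _ (hseg θ τ hτ)).symm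
    rw [e1, intervalIntegral.integral_add (hint1 θ) (hint2 θ)]
    congr 1
    apply intervalIntegral.integral_eq_sub_of_hasDerivAt (f := fun τ => F1 (τ, θ))
    · intro τ hτ
      exact hasD1 (hdf hF1 _ (hseg θ τ hτ))
    · exact hint1 θ
  obtain ⟨hc2, hI2⟩ := area_D2 hV hF2 hM C.VT hT hT'c (by
      have := C.Tper 0
      rwa [zero_add] at this) (by
      intro τ
      have h1 := hψper τ 0
      have h2 := per_D2 huper τ 0
      rw [zero_add] at h1 h2
      show Real.exp _ * D2 C.u (τ, 2 * π) * ψ (τ, 2 * π) = Real.exp _ * D2 C.u (τ, 0) * ψ (τ, 0)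
      rw [h1, h2])
  have hcF1T : Continuous (fun θ => F1 (C.T θ, θ)) :=
    hF1.continuousOn.comp_continuous hcT (fun θ => C.VT _ le_rfl)
  have hcF2T : Continuous (fun θ => F2 (C.T θ, θ)) :=
    hF2.continuousOn.comp_continuous hcT (fun θ => C.VT _ le_rfl)
  have hcF1M : Continuous (fun θ => F1 (-M, θ)) :=
    hF1.continuousOn.comp_continuous hcM hMV
  have hcTF : Continuous (fun θ => -(D2 C.u (C.T θ, θ) / D1 C.u (C.T θ, θ)) * F2 (C.T θ, θ)) :=
    hT'c.mul hcF2T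
  simp_rw [hinner]
  have hcFs : Continuous (fun θ => F1 (C.T θ, θ) - F1 (-M, θ)) := hcF1T.sub hcF1M
  rw [intervalIntegral.integral_add (hcFs.intervalIntegrable _ _)
    (hc2.intervalIntegrable _ _), hI2,
    intervalIntegral.integral_sub (hcF1T.intervalIntegrable _ _) (hcF1M.intervalIntegrable _ _)]
  have e6 : ∫ θ in (0 : ℝ)..(2 * π), ψ (C.T θ, θ) * C.flux θ =
      (∫ θ in (0 : ℝ)..(2 * π), F1 (C.T θ, θ)) -
      ∫ θ in (0 : ℝ)..(2 * π), -(D2 C.u (C.T θ, θ) / D1 C.u (C.T θ, θ)) * F2 (C.T θ, θ) := by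
    rw [← intervalIntegral.integral_sub (hcF1T.intervalIntegrable _ _)
      (hcTF.intervalIntegrable _ _)]
    apply intervalIntegral.integral_congr
    intro θ _
    simp only [F1, F2, Config.flux]
    have := hne θ
    field_simp
    ring
  have e7 : ∫ θ in (0 : ℝ)..(2 * π), Real.exp ((1 - κ) * M) * D1 C.u (-M, θ) * ψ (-M, θ) / κ =
      ∫ θ in (0 : ℝ)..(2 * π), F1 (-M, θ) := by
    apply intervalIntegral.integral_congr
    intro θ _
    simp only [F1]
    have : -((1 - κ) * -M) = (1 - κ) * M := by ring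
    rw [this]
  rw [e6, e7]
  ring

end Pool.Agent.Helper73.PC
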