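import Mathlib
import Pool.Agent.Helper73.PC.P8

/-!
Level curves (packet P2 of helper25, MP_576c25_an).
-/

set_option autoImplicit false

open MeasureTheory Set Filter Topology Asymptotics
open scoped ContDiff Real

noncomputable section

namespace Pool.Agent.Helper73.PC

open Pool.Agent.Helper25.PCap

/-- implicit differentiation -/
theorem implicit_deriv {u : ℝ × ℝ → ℝ} {a : ℝ → ℝ} {θ₀ s : ℝ}
    (hu : DifferentiableAt ℝ u (a θ₀, θ₀)) (hpos : 0 < D1 u (a θ₀, θ₀))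
    (hcont : ContinuousAt a θ₀) (hs : ∀ θ, u (a θ, θ) = s) :
    HasDerivAt a (-(D2 u (a θ₀, θ₀) / D1 u (a θ₀, θ₀))) θ₀ := by
  obtain ⟨c, hc⟩ : ∃ c, c = D1 u (a θ₀, θ₀) := ⟨_, rfl⟩
  obtain ⟨d, hd⟩ : ∃ d, d = D2 u (a θ₀, θ₀) := ⟨_, rfl⟩
  rw [← hc, ← hd]
  rw [← hc] at hpos
  have hlim : Tendsto (fun θ => (a θ, θ)) (𝓝 θ₀) (𝓝 (a θ₀, θ₀)) := by
    have : ContinuousAt (fun θ => (a θ, θ)) θ₀ := hcont.prodMk continuousAt_id
    exact this
  have h1 := (hasFDerivAt_iff_isLittleO.1 hu.hasFDerivAt).comp_tendsto hlim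
  have h2 : (fun θ => c * (a θ - a θ₀) + d * (θ - θ₀)) =o[𝓝 θ₀]
      (fun θ => ((a θ, θ) : ℝ × ℝ) - (a θ₀, θ₀)) := by
    refine h1.neg_left.congr_left ?_
    intro θ
    simp only [Function.comp, hs, sub_self, zero_sub, neg_neg]
    have e : ((a θ, θ) : ℝ × ℝ) - (a θ₀, θ₀) = (a θ - a θ₀, θ - θ₀) := rfl
    rw [e, fderiv_split, hc, hd]
    ring
  have h3 : (fun θ => ((a θ, θ) : ℝ × ℝ) - (a θ₀, θ₀)) =O[𝓝 θ₀] (fun θ => θ - θ₀) := by
    have h4 := h2.def (c := c / 2) (by positivity)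
    refine IsBigO.of_bound (1 + (2 * |d| + c) / c) ?_
    filter_upwards [h4] with θ hθ
    rw [Real.norm_eq_abs] at hθ
    have e : ‖((a θ, θ) : ℝ × ℝ) - (a θ₀, θ₀)‖ = max |a θ - a θ₀| |θ - θ₀| := rfl
    rw [e] at hθ ⊢
    rw [Real.norm_eq_abs]
    have p1 := abs_nonneg (a θ - a θ₀)
    have p2 := abs_nonneg (θ - θ₀)
    have p3 := abs_nonneg d
    have h5 : max |a θ - a θ₀| |θ - θ₀| ≤ |a θ - a θ₀| + |θ - θ₀| :=
      max_le (by linarith) (by linarith)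
    have h6 : c * |a θ - a θ₀| ≤ |c * (a θ - a θ₀) + d * (θ - θ₀)| + |d| * |θ - θ₀| := by
      have h7 : c * |a θ - a θ₀| = |c * (a θ - a θ₀)| := by rw [abs_mul, abs_of_pos hpos]
      rw [h7]
      have h8 : c * (a θ - a θ₀) = (c * (a θ - a θ₀) + d * (θ - θ₀)) - d * (θ - θ₀) := by ring
      calc |c * (a θ - a θ₀)| = |(c * (a θ - a θ₀) + d * (θ - θ₀)) - d * (θ - θ₀)| := by
            rw [← h8]
        _ ≤ |c * (a θ - a θ₀) + d * (θ - θ₀)| + |d * (θ - θ₀)| := abs_sub _ _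
        _ = _ := by rw [abs_mul d]
    have h9 : c * |a θ - a θ₀| ≤ c / 2 * (|a θ - a θ₀| + |θ - θ₀|) + |d| * |θ - θ₀| := by
      have := mul_le_mul_of_nonneg_left h5 (by positivity : 0 ≤ c / 2)
      linarith
    have h10 : |a θ - a θ₀| ≤ (2 * |d| + c) / c * |θ - θ₀| := by
      rw [div_mul_eq_mul_div, le_div_iff₀ hpos]
      nlinarith
    have h11 : 0 ≤ (2 * |d| + c) / c := by positivity
    refine max_le ?_ ?_
    · nlinarith
    · nlinarith [mul_nonneg h11 p2]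
  have h12 : (fun θ => c * (a θ - a θ₀) + d * (θ - θ₀)) =o[𝓝 θ₀] (fun θ => θ - θ₀) :=
    h2.trans_isBigO h3
  rw [hasDerivAt_iff_isLittleO]
  refine (h12.const_mul_left c⁻¹).congr_left ?_
  intro θ
  have := hpos.ne'
  simp only [smul_eq_mul]
  field_simp
  ring

theorem pkP2 (hc : GCU0) (he : GCE) (h1 : GCU1) : GP2 := by
  intro κ hκ hκ1 C
  obtain ⟨huC, -, -, -, -, -, huper, hu1, hupos⟩ := hc κ hκ hκ1 C
  obtain ⟨K, τ₁, hτ₁, hexp⟩ := he κ hκ hκ1 C
  obtain ⟨hpos, hlt1, -⟩ := h1 κ hκ hκ1 C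
  have hV := C.Vopen
  have hTc := C.Tcont
  have hud : ∀ z ∈ C.V, DifferentiableAt ℝ C.u z := fun z hz =>
    (huC.contDiffAt (hV.mem_nhds hz)).differentiableAt (by simp)
  have huc : ∀ z ∈ C.V, ContinuousAt C.u z := fun z hz => (hud z hz).continuousAt
  -- strict monotonicity
  have hmono : ∀ θ, StrictMonoOn (fun τ => C.u (τ, θ)) (Iic (C.T θ)) := by
    intro θ
    apply strictMonoOn_of_deriv_pos (convex_Iic _)
    · intro τ hτ
      apply ContinuousAt.continuousWithinAt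
      have h2 : ContinuousAt C.u (τ, θ) := huc _ (C.VT _ hτ)
      exact ContinuousAt.comp (f := fun τ : ℝ => ((τ, θ) : ℝ × ℝ)) h2 (by fun_prop)
    · intro τ hτ
      rw [interior_Iic] at hτ
      have h2 := hasD1 (hud (τ, θ) (C.VT _ (le_of_lt hτ)))
      rw [h2.deriv]
      exact hupos _ (le_of_lt hτ)
  have hcontl : ∀ θ, ContinuousOn (fun τ => C.u (τ, θ)) (Iic (C.T θ)) := by
    intro θ τ hτ
    apply ContinuousAt.continuousWithinAt
    have h2 : ContinuousAt C.u (τ, θ) := huc _ (C.VT _ hτ)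
    exact ContinuousAt.comp (f := fun τ : ℝ => ((τ, θ) : ℝ × ℝ)) h2 (by fun_prop)
  -- (2)
  have hlev2 : ∀ z : ℝ × ℝ, z.1 ≤ C.T z.2 → C.lev (C.u z) z.2 = z.1 := by
    intro z hz
    unfold Config.lev
    have : {τ : ℝ | τ ≤ C.T z.2 ∧ C.u (τ, z.2) ≤ C.u z} = Iic z.1 := by
      ext τ
      constructor
      · rintro ⟨h2, h3⟩
        exact ((hmono z.2).le_iff_le h2 hz).1 h3
      · intro h2
        have h2' : τ ≤ z.1 := h2
        have h4 : τ ≤ C.T z.2 := h2'.trans hz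
        exact ⟨h4, ((hmono z.2).le_iff_le h4 hz).2 h2'⟩
    rw [this, csSup_Iic]
  -- limit at -∞
  have haa : 0 < aa κ 2 := by
    unfold aa
    have h2 : 0 ≤ Real.sqrt ((1 - κ) ^ 2 + 4 * κ * ((2 : ℕ) : ℝ) ^ 2) := Real.sqrt_nonneg _
    have h3 : 0 < 1 - κ := by linarith
    exact div_pos (add_pos_of_pos_of_nonneg h3 h2) two_pos
  have hlim : ∀ θ, Tendsto (fun τ => C.u (τ, θ)) atBot (𝓝 0) := by
    intro θ
    have e1 : Tendsto (fun τ : ℝ => Real.exp ((1 - κ) * τ)) atBot (𝓝 0) :=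
      Real.tendsto_exp_atBot.comp (tendsto_id.const_mul_atBot (by linarith))
    have e2 : Tendsto (fun τ : ℝ => Real.exp (aa κ 2 * τ)) atBot (𝓝 0) :=
      Real.tendsto_exp_atBot.comp (tendsto_id.const_mul_atBot haa)
    have e3 : Tendsto (fun τ : ℝ => C.C0 * Real.exp ((1 - κ) * τ)) atBot (𝓝 0) := by
      simpa using e1.const_mul C.C0
    have e4 : Tendsto (fun τ : ℝ => K * Real.exp (aa κ 2 * τ)) atBot (𝓝 0) := by
      simpa using e2.const_mul K
    have e5 : Tendsto (fun τ : ℝ => C.u (τ, θ) - C.C0 * Real.exp ((1 - κ) * τ)) atBot (𝓝 0) := by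
      apply squeeze_zero_norm' _ e4
      filter_upwards [eventually_le_atBot τ₁] with τ hτ
      exact (hexp τ θ hτ).2.2.2.1
    have e6 := e5.add e3
    simpa using e6
  -- (1)
  have hlev1 : ∀ s θ, 0 < s → s ≤ 1 → C.lev s θ ≤ C.T θ ∧ C.u (C.lev s θ, θ) = s := by
    intro s θ hs hs1
    have h2 : ∀ᶠ τ in atBot, C.u (τ, θ) < s := (hlim θ).eventually (gt_mem_nhds hs)
    obtain ⟨τ₀, hτ₀, hτ₀'⟩ := (h2.and (eventually_le_atBot (C.T θ))).exists
    have h3 : s ∈ Icc (C.u (τ₀, θ)) (C.u (C.T θ, θ)) := by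
      rw [hu1]
      exact ⟨hτ₀.le, hs1⟩
    have h4 := intermediate_value_Icc hτ₀' ((hcontl θ).mono Icc_subset_Iic_self)
    obtain ⟨τ, hτ, hτs⟩ := h4 h3
    have h5 := hlev2 (τ, θ) hτ.2
    have hτs' : C.u (τ, θ) = s := hτs
    simp only [hτs'] at h5
    rw [h5]
    exact ⟨hτ.2, hτs'⟩
  -- (4)
  have hlev4 : ∀ s s' θ, 0 < s → s < s' → s' ≤ 1 → C.lev s θ < C.lev s' θ := by
    intro s s' θ hs hss hs1
    obtain ⟨h2, h3⟩ := hlev1 s θ hs (by linarith)
    obtain ⟨h4, h5⟩ := hlev1 s' θ (by linarith) hs1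
    by_contra h6
    push Not at h6
    have := ((hmono θ).le_iff_le h4 h2).2 h6
    simp only [h3, h5] at this
    linarith
  -- (7)
  have hcont : ∀ s θ, 0 < s → s ≤ 1 →
      Tendsto (fun p : ℝ × ℝ => C.lev p.1 p.2) (𝓝[Ioc (0 : ℝ) 1 ×ˢ (univ : Set ℝ)] (s, θ))
        (𝓝 (C.lev s θ)) := by
    intro s θ hs hs1
    obtain ⟨ha1, ha2⟩ := hlev1 s θ hs hs1
    have t2 : Tendsto (fun p : ℝ × ℝ => p.2) (𝓝[Ioc (0 : ℝ) 1 ×ˢ (univ : Set ℝ)] (s, θ)) (𝓝 θ) :=
      (continuous_snd.tendsto (s, θ)).mono_left nhdsWithin_le_nhds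
    have t1 : Tendsto (fun p : ℝ × ℝ => p.1) (𝓝[Ioc (0 : ℝ) 1 ×ˢ (univ : Set ℝ)] (s, θ)) (𝓝 s) :=
      (continuous_fst.tendsto (s, θ)).mono_left nhdsWithin_le_nhds
    have hmem : ∀ᶠ p : ℝ × ℝ in 𝓝[Ioc (0 : ℝ) 1 ×ˢ (univ : Set ℝ)] (s, θ), 0 < p.1 ∧ p.1 ≤ 1 := by
      filter_upwards [self_mem_nhdsWithin] with p hp
      exact hp.1
    have hcmp : ∀ b : ℝ, b ≤ C.T θ → Tendsto (fun p : ℝ × ℝ => C.u (b, p.2))
        (𝓝[Ioc (0 : ℝ) 1 ×ˢ (univ : Set ℝ)] (s, θ)) (𝓝 (C.u (b, θ))) := by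
      intro b hb
      have h2 : ContinuousAt C.u (b, θ) := huc _ (C.VT _ hb)
      have h3 : Tendsto (fun p : ℝ × ℝ => ((b, p.2) : ℝ × ℝ))
          (𝓝[Ioc (0 : ℝ) 1 ×ˢ (univ : Set ℝ)] (s, θ)) (𝓝 (b, θ)) := by
        rw [nhds_prod_eq]
        exact (tendsto_const_nhds).prodMk t2
      exact h2.tendsto.comp h3
    have hTt : Tendsto (fun p : ℝ × ℝ => C.T p.2)
        (𝓝[Ioc (0 : ℝ) 1 ×ˢ (univ : Set ℝ)] (s, θ)) (𝓝 (C.T θ)) :=
      (hTc.tendsto θ).comp t2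
    rw [Metric.tendsto_nhds]
    intro η hη
    -- lower bound
    have hlow : ∀ᶠ p : ℝ × ℝ in 𝓝[Ioc (0 : ℝ) 1 ×ˢ (univ : Set ℝ)] (s, θ),
        C.lev s θ - η / 2 < C.lev p.1 p.2 := by
      have hb : C.lev s θ - η / 2 < C.T θ := by linarith
      have h2 : C.u (C.lev s θ - η / 2, θ) < s := by
        have h3 := (hmono θ) (by exact hb.le : C.lev s θ - η / 2 ∈ Iic (C.T θ)) ha1
          (by linarith)
        simp only [ha2] at h3
        exact h3
      have h4 := (hcmp _ hb.le).eventually_lt t1 h2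
      have h5 := hTt.eventually (lt_mem_nhds hb)
      filter_upwards [h4, h5, hmem] with p h6 h7 h8
      obtain ⟨h9, h10⟩ := hlev1 p.1 p.2 h8.1 h8.2
      by_contra h11
      push Not at h11
      have h12 := ((hmono p.2).le_iff_le h9 h7.le).2 h11
      simp only [h10] at h12
      linarith
    have hup : ∀ᶠ p : ℝ × ℝ in 𝓝[Ioc (0 : ℝ) 1 ×ˢ (univ : Set ℝ)] (s, θ),
        C.lev p.1 p.2 < C.lev s θ + η := by
      by_cases hb : C.lev s θ + η / 2 < C.T θ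
      · have h2 : s < C.u (C.lev s θ + η / 2, θ) := by
          have h3 := (hmono θ) ha1 (by exact hb.le : C.lev s θ + η / 2 ∈ Iic (C.T θ))
            (by linarith)
          simp only [ha2] at h3
          exact h3
        have h4 := t1.eventually_lt (hcmp _ hb.le) h2
        have h5 := hTt.eventually (lt_mem_nhds hb)
        filter_upwards [h4, h5, hmem] with p h6 h7 h8
        obtain ⟨h9, h10⟩ := hlev1 p.1 p.2 h8.1 h8.2
        have h12 : C.lev p.1 p.2 ≤ C.lev s θ + η / 2 := by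
          by_contra h11
          push Not at h11
          have h12 := (hmono p.2) (by exact h7.le : C.lev s θ + η / 2 ∈ Iic (C.T p.2)) h9 h11
          simp only [h10] at h12
          linarith
        linarith
      · push Not at hb
        have h5 := hTt.eventually (gt_mem_nhds (by linarith : C.T θ < C.lev s θ + η))
        filter_upwards [h5, hmem] with p h7 h8
        obtain ⟨h9, h10⟩ := hlev1 p.1 p.2 h8.1 h8.2
        linarith
    filter_upwards [hlow, hup] with p h2 h3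
    rw [Real.dist_eq, abs_lt]
    constructor <;> linarith
  have hconts : ∀ s θ, 0 < s → s ≤ 1 → ContinuousAt (C.lev s) θ := by
    intro s θ hs hs1
    have h2 := hcont s θ hs hs1
    have h3 : Tendsto (fun θ' : ℝ => ((s, θ') : ℝ × ℝ)) (𝓝 θ)
        (𝓝[Ioc (0 : ℝ) 1 ×ˢ (univ : Set ℝ)] (s, θ)) := by
      rw [tendsto_nhdsWithin_iff]
      refine ⟨(by fun_prop : Continuous (fun θ' : ℝ => ((s, θ') : ℝ × ℝ))).tendsto θ, ?_⟩
      exact Eventually.of_forall fun θ' => ⟨⟨hs, hs1⟩, mem_univ _⟩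
    exact h2.comp h3
  refine ⟨hlev1, hlev2, ?_, hlev4, ?_, ?_, ?_, ?_⟩
  · intro θ
    have h2 := hlev2 (C.T θ, θ) le_rfl
    rw [hu1] at h2
    exact h2
  · intro s θ
    unfold Config.lev
    simp only [C.Tper, huper]
  · intro s θ hs hs1
    exact implicit_deriv (hud _ (C.VT _ (hlev1 s θ hs hs1).1)) (hupos _ (hlev1 s θ hs hs1).1)
      (hconts s θ hs hs1) (fun θ' => (hlev1 s θ' hs hs1).2)
  · rintro ⟨s, θ⟩ ⟨⟨hs, hs1⟩, -⟩
    exact hcont s θ hs hs1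
  · intro M
    obtain ⟨M', hM'⟩ : ∃ M', M' = max M (-τ₁) := ⟨_, rfl⟩
    have h2 : M ≤ M' := by rw [hM']; exact le_max_left _ _
    have h3 : -τ₁ ≤ M' := by rw [hM']; exact le_max_right _ _
    have h4 : ∀ θ, -M' ≤ C.T θ := fun θ => le_trans (by linarith) (hτ₁ θ)
    have hg : Continuous (fun θ => C.u (-M', θ)) :=
      huC.continuousOn.comp_continuous (by fun_prop) (fun θ => C.VT _ (h4 θ))
    have hgper : Function.Periodic (fun θ => C.u (-M', θ)) (2 * π) := fun θ => huper _ _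
    have hK := hgper.compact_of_continuous (by positivity) hg
    obtain ⟨m, ⟨⟨θm, hθm⟩, hm2⟩⟩ := hK.exists_isLeast (range_nonempty _)
    have hmpos : 0 < m := by
      rw [← hθm]
      exact hpos _ (h4 θm)
    refine ⟨min m 1, lt_min hmpos one_pos, min_le_right _ _, ?_⟩
    intro s θ hs hsm
    have h5 : s < m := lt_of_lt_of_le hsm (min_le_left _ _)
    have h6 : s < 1 := lt_of_lt_of_le hsm (min_le_right _ _)
    have h7 : m ≤ C.u (-M', θ) := hm2 ⟨θ, rfl⟩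
    obtain ⟨h9, h10⟩ := hlev1 s θ hs h6.le
    have h11 : C.lev s θ ≤ -M' := by
      by_contra h12
      push Not at h12
      have h13 := (hmono θ) (by exact h4 θ : -M' ∈ Iic (C.T θ)) h9 h12
      simp only [h10] at h13
      linarith
    linarith

end Pool.Agent.Helper73.PC
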