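import Mathlib
import Pool.Agent.Helper25.PCap.GoalsS

/-!
Full slit data (packet S13 of helper25, MP_576c25_an).
-/

set_option autoImplicit false

open MeasureTheory Set Filter Topology
open scoped ContDiff Real

noncomputable section

namespace Pool.Agent.Helper73.PC

open Pool.Agent.Helper25.PCap

theorem pkS13 (h10 : GS10) (h11 : GS11) (h12 : GS12) : GS13 := by
  intro κ hκ hκ1 S
  obtain ⟨a1, a2, a3, a4, a5, a6, a7⟩ := h10 κ hκ hκ1 S
  obtain ⟨b1, b2⟩ := h11 κ hκ hκ1 S a1 a2 a4
  obtain ⟨c1, c2, c3, c4, c5, c6, c7⟩ := h12 κ hκ hκ1 S a1 a2 a3 a4 a7 b1 b2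
  exact ⟨{ toSData := S
           om := omS S
           sysQ := a1
           sysN := a2
           om_half := a3
           om_zero := a4
           om_refl := a5
           om_odd := a6
           om_pos := c1
           om_slit := c2
           om_cont := b1
           dom_zero := c3
           dom_half := c4
           refl2 := b2
           u_half := c5
           u_zero := c6
           mean_le := c7
           exp := a7 }, rfl⟩

end Pool.Agent.Helper73.PC
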