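import Mathlib
import Pool.Agent.Helper25.PCap.GoalsTools

/-!
Hopf's strong maximum principle (packet SMP of helper25, MP_576c25_an).
-/

set_option autoImplicit false

open MeasureTheory Set Filter Topology
open scoped ContDiff Real

noncomputable section

namespace Pool.Agent.Helper73.PC

open Pool.Agent.Helper25.PCap

/-- second derivative test, necessary condition, along a line -/
theorem lmin {f : ℝ × ℝ → ℝ} {w : ℝ × ℝ} (e : ℝ × ℝ) (hf : ContDiffAt ℝ 2 f w)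
    (hm : IsLocalMin f w) :
    fderiv ℝ f w e = 0 ∧ 0 ≤ fderiv ℝ (fun z => fderiv ℝ f z e) w e := by
  have h1 : fderiv ℝ f w = 0 := hm.fderiv_eq_zero
  refine ⟨by rw [h1]; rfl, ?_⟩
  by_contra hneg
  push Not at hneg
  have hev : ∀ᶠ z in 𝓝 w, ContDiffAt ℝ 2 f z := hf.eventually (by decide)
  have hline : Tendsto (fun t : ℝ => w + t • e) (𝓝 0) (𝓝 w) := by
    have : ContinuousAt (fun t : ℝ => w + t • e) 0 := by fun_prop
    simpa [ContinuousAt] using this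
  have hlD : ∀ t : ℝ, HasDerivAt (fun t : ℝ => w + t • e) e t := by
    intro t
    simpa using ((hasDerivAt_id t).smul_const e).const_add w
  have hg : ∀ᶠ t in 𝓝 (0 : ℝ), HasDerivAt (fun t : ℝ => f (w + t • e))
      (fderiv ℝ f (w + t • e) e) t := by
    filter_upwards [hline.eventually hev] with t ht
    exact (ht.differentiableAt (by norm_num)).hasFDerivAt.comp_hasDerivAt t (hlD t)
  have hdg : deriv (fun t : ℝ => f (w + t • e)) =ᶠ[𝓝 0]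
      (fun t : ℝ => fderiv ℝ f (w + t • e) e) := by
    filter_upwards [hg] with t ht using ht.deriv
  have hw0 : w + (0 : ℝ) • e = w := by simp
  have hC1 : ContDiffAt ℝ 1 (fun z => fderiv ℝ f z e) w := by
    have := hf.fderiv_right (m := 1) (by norm_num)
    exact this.clm_apply contDiffAt_const
  have hG : HasDerivAt (fun t : ℝ => fderiv ℝ f (w + t • e) e)
      (fderiv ℝ (fun z => fderiv ℝ f z e) w e) 0 := by
    have h2 : HasFDerivAt (fun z => fderiv ℝ f z e) (fderiv ℝ (fun z => fderiv ℝ f z e) w)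
        (w + (0 : ℝ) • e) := by
      rw [hw0]
      exact (hC1.differentiableAt (by norm_num)).hasFDerivAt
    exact h2.comp_hasDerivAt (0 : ℝ) (hlD 0)
  have hdd : deriv (deriv (fun t : ℝ => f (w + t • e))) 0 =
      fderiv ℝ (fun z => fderiv ℝ f z e) w e := by
    rw [hdg.deriv_eq, hG.deriv]
  have hd0 : deriv (fun t : ℝ => f (w + t • e)) 0 = 0 := by
    rw [hdg.self_of_nhds]
    show fderiv ℝ f (w + (0 : ℝ) • e) e = 0
    rw [hw0, h1]; rfl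
  have hcont : ContinuousAt (fun t : ℝ => f (w + t • e)) 0 :=
    hg.self_of_nhds.continuousAt
  have hmax : IsLocalMax (fun t : ℝ => f (w + t • e)) 0 :=
    isLocalMax_of_deriv_deriv_neg (by rw [hdd]; exact hneg) hd0 hcont
  have hmin : ∀ᶠ t in 𝓝 (0 : ℝ), f w ≤ f (w + t • e) := hline.eventually hm
  have hconst : (fun t : ℝ => f (w + t • e)) =ᶠ[𝓝 0] (fun _ => f w) := by
    filter_upwards [hmin, hmax] with t h3 h4
    simp only [hw0] at h4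
    exact le_antisymm h4 h3
  have h5 : deriv (deriv (fun t : ℝ => f (w + t • e))) 0 = 0 := by
    rw [hconst.deriv.deriv_eq]
    simp
  rw [hdd] at h5
  linarith

theorem dsub {ψ b : ℝ × ℝ → ℝ} {w : ℝ × ℝ} (e : ℝ × ℝ) (c : ℝ) (hψ : ContDiffAt ℝ 2 ψ w)
    (hb : ContDiff ℝ 2 b) :
    fderiv ℝ (fun z => ψ z - c * b z) w e = fderiv ℝ ψ w e - c * fderiv ℝ b w e ∧
    fderiv ℝ (fun z => fderiv ℝ (fun z => ψ z - c * b z) z e) w e =
      fderiv ℝ (fun z => fderiv ℝ ψ z e) w e - c * fderiv ℝ (fun z => fderiv ℝ b z e) w e := by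
  have hev : ∀ᶠ z in 𝓝 w, ContDiffAt ℝ 2 ψ z := hψ.eventually (by decide)
  have h1 : ∀ z, ContDiffAt ℝ 2 ψ z →
      fderiv ℝ (fun z => ψ z - c * b z) z e = fderiv ℝ ψ z e - c * fderiv ℝ b z e := by
    intro z hz
    have ha := (hz.differentiableAt (by norm_num)).hasFDerivAt
    have hbb := ((hb.contDiffAt (x := z)).differentiableAt (by norm_num)).hasFDerivAt
    have := (ha.fun_sub (hbb.const_mul c)).fderiv
    rw [this]
    simp
  refine ⟨h1 w hψ, ?_⟩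
  have h2 : (fun z => fderiv ℝ (fun z => ψ z - c * b z) z e) =ᶠ[𝓝 w]
      (fun z => fderiv ℝ ψ z e - c * fderiv ℝ b z e) := by
    filter_upwards [hev] with z hz using h1 z hz
  rw [h2.fderiv_eq]
  have hC1 : ContDiffAt ℝ 1 (fun z => fderiv ℝ ψ z e) w := by
    have := hψ.fderiv_right (m := 1) (by norm_num)
    exact this.clm_apply contDiffAt_const
  have hC2 : ContDiffAt ℝ 1 (fun z => fderiv ℝ b z e) w := by
    have := (hb.contDiffAt (x := w)).fderiv_right (m := 1) (by norm_num)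
    exact this.clm_apply contDiffAt_const
  have ha := (hC1.differentiableAt (by norm_num)).hasFDerivAt
  have hbb := (hC2.differentiableAt (by norm_num)).hasFDerivAt
  have := (ha.fun_sub (hbb.const_mul c)).fderiv
  rw [this]
  simp

theorem D1_eq {f : ℝ × ℝ → ℝ} {z : ℝ × ℝ} (h : DifferentiableAt ℝ f z) :
    D1 f z = deriv (fun t => f (t, z.2)) z.1 := by
  have h1 : HasDerivAt (fun t : ℝ => ((t, z.2) : ℝ × ℝ)) (1, 0) z.1 :=
    (hasDerivAt_id z.1).prodMk (hasDerivAt_const z.1 z.2)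
  have h2 : HasDerivAt (fun t => f (t, z.2)) (fderiv ℝ f z (1, 0)) z.1 :=
    h.hasFDerivAt.comp_hasDerivAt z.1 h1
  rw [h2.deriv]; rfl

theorem D2_eq {f : ℝ × ℝ → ℝ} {z : ℝ × ℝ} (h : DifferentiableAt ℝ f z) :
    D2 f z = deriv (fun t => f (z.1, t)) z.2 := by
  have h1 : HasDerivAt (fun t : ℝ => ((z.1, t) : ℝ × ℝ)) (0, 1) z.2 :=
    (hasDerivAt_const z.2 z.1).prodMk (hasDerivAt_id z.2)
  have h2 : HasDerivAt (fun t => f (z.1, t)) (fderiv ℝ f z (0, 1)) z.2 :=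
    h.hasFDerivAt.comp_hasDerivAt z.2 h1
  rw [h2.deriv]; rfl

/-- the quadratic form -/
def NN (κ : ℝ) (v : ℝ × ℝ) : ℝ := v.1 ^ 2 + v.2 ^ 2 / κ

theorem NN_nonneg {κ : ℝ} (hκ : 0 < κ) (v : ℝ × ℝ) : 0 ≤ NN κ v := by
  unfold NN; positivity

theorem NN_pos {κ : ℝ} (hκ : 0 < κ) {v : ℝ × ℝ} (hv : v ≠ 0) : 0 < NN κ v := by
  unfold NN
  by_contra h
  push Not at h
  have h1 : 0 ≤ v.2 ^ 2 / κ := by positivity
  have h2 : v.1 ^ 2 = 0 := le_antisymm (by nlinarith [sq_nonneg v.1]) (sq_nonneg _)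
  have h3 : v.2 ^ 2 / κ = 0 := le_antisymm (by nlinarith [sq_nonneg v.1]) h1
  have h4 : v.2 ^ 2 = 0 := by
    rcases div_eq_zero_iff.1 h3 with h | h
    · exact h
    · exact absurd h hκ.ne'
  apply hv
  exact Prod.ext (by simpa using h2) (by simpa using h4)

theorem NN_add {κ : ℝ} (hκ : 0 < κ) (u v : ℝ × ℝ) : NN κ (u + v) ≤ 2 * NN κ u + 2 * NN κ v := by
  unfold NN
  simp only [Prod.fst_add, Prod.snd_add]
  have h1 : (u.1 + v.1) ^ 2 ≤ 2 * u.1 ^ 2 + 2 * v.1 ^ 2 := by nlinarith [sq_nonneg (u.1 - v.1)]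
  have h2 : (u.2 + v.2) ^ 2 / κ ≤ 2 * (u.2 ^ 2 / κ) + 2 * (v.2 ^ 2 / κ) := by
    rw [← mul_div_assoc, ← mul_div_assoc, ← add_div]
    apply div_le_div_of_nonneg_right _ hκ.le
    nlinarith [sq_nonneg (u.2 - v.2)]
  linarith

theorem NN_smul {κ : ℝ} (t : ℝ) (v : ℝ × ℝ) : NN κ (t • v) = t ^ 2 * NN κ v := by
  unfold NN
  simp only [Prod.smul_fst, Prod.smul_snd, smul_eq_mul]
  ring

theorem NN_cont (κ : ℝ) (a : ℝ × ℝ) : Continuous (fun z => NN κ (z - a)) := by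
  unfold NN
  fun_prop

/-- the closed discs are compact -/
theorem NN_compact {κ : ℝ} (hκ : 0 < κ) (a : ℝ × ℝ) (s : ℝ) :
    IsCompact {z : ℝ × ℝ | NN κ (z - a) ≤ s} := by
  apply Metric.isCompact_of_isClosed_isBounded
  · exact isClosed_le (NN_cont κ a) continuous_const
  · rw [Metric.isBounded_iff_subset_closedBall a]
    refine ⟨1 + |s| + κ * |s|, ?_⟩
    intro z hz
    simp only [Set.mem_ofPred_eq, NN, Prod.fst_sub, Prod.snd_sub] at hz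
    rw [Metric.mem_closedBall, Prod.dist_eq, Real.dist_eq, Real.dist_eq]
    have hs : s ≤ |s| := le_abs_self s
    have h0 : 0 ≤ |s| := abs_nonneg s
    have h1 : 0 ≤ (z.2 - a.2) ^ 2 / κ := by positivity
    have h2 : (z.1 - a.1) ^ 2 ≤ |s| := by nlinarith
    have h3 : (z.2 - a.2) ^ 2 / κ ≤ |s| := by nlinarith [sq_nonneg (z.1 - a.1)]
    have h4 : (z.2 - a.2) ^ 2 ≤ κ * |s| := by
      rw [div_le_iff₀ hκ] at h3
      linarith
    apply max_le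
    · have := abs_nonneg (z.1 - a.1)
      nlinarith [sq_abs (z.1 - a.1), sq_nonneg (|z.1 - a.1| - 1), mul_nonneg hκ.le h0]
    · have := abs_nonneg (z.2 - a.2)
      nlinarith [sq_abs (z.2 - a.2), sq_nonneg (|z.2 - a.2| - 1), mul_nonneg hκ.le h0]

/-- small discs are inside open sets -/
theorem NN_small {κ : ℝ} (hκ : 0 < κ) {O : Set (ℝ × ℝ)} (hO : IsOpen O) {a : ℝ × ℝ} (ha : a ∈ O) :
    ∃ s : ℝ, 0 < s ∧ {z : ℝ × ℝ | NN κ (z - a) ≤ 4 * s} ⊆ O := by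
  obtain ⟨ε, hε, hb⟩ := Metric.isOpen_iff.1 hO a ha
  refine ⟨ε ^ 2 / (8 * (1 + κ)), by positivity, ?_⟩
  intro z hz
  apply hb
  simp only [Set.mem_ofPred_eq, NN, Prod.fst_sub, Prod.snd_sub] at hz
  rw [Metric.mem_ball, Prod.dist_eq, Real.dist_eq, Real.dist_eq]
  have h1 : 0 ≤ (z.2 - a.2) ^ 2 / κ := by positivity
  have h5 : 4 * (ε ^ 2 / (8 * (1 + κ))) * (1 + κ) = ε ^ 2 / 2 := by
    field_simp; ring
  have h6 : 0 < ε ^ 2 / (8 * (1 + κ)) := by positivity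
  have h2 : (z.1 - a.1) ^ 2 < ε ^ 2 := by nlinarith [sq_pos_of_pos hε]
  have h3 : (z.2 - a.2) ^ 2 / κ ≤ 4 * (ε ^ 2 / (8 * (1 + κ))) := by
    nlinarith [sq_nonneg (z.1 - a.1)]
  have h4 : (z.2 - a.2) ^ 2 < ε ^ 2 := by
    rw [div_le_iff₀ hκ] at h3
    nlinarith [sq_pos_of_pos hε]
  exact max_lt (abs_lt_of_sq_lt_sq h2 hε.le) (abs_lt_of_sq_lt_sq h4 hε.le)

/-- the exponential factor -/
def EE (κ l : ℝ) (a : ℝ × ℝ) (z : ℝ × ℝ) : ℝ :=
  Real.exp (-l * ((z.1 - a.1) ^ 2 + (z.2 - a.2) ^ 2 / κ))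

/-- barrier -/
def bar (κ l ρ : ℝ) (a : ℝ × ℝ) (z : ℝ × ℝ) : ℝ := EE κ l a z - Real.exp (-l * ρ)

theorem EE_pos (κ l : ℝ) (a z : ℝ × ℝ) : 0 < EE κ l a z := Real.exp_pos _

theorem bar_contDiff (κ l ρ : ℝ) (a : ℝ × ℝ) : ContDiff ℝ 2 (bar κ l ρ a) := by
  unfold bar EE
  fun_prop

theorem EE_h1 (κ l : ℝ) (a z : ℝ × ℝ) :
    HasDerivAt (fun t : ℝ => EE κ l a (t, z.2)) (-2 * l * (z.1 - a.1) * EE κ l a z) z.1 := by
  unfold EE
  have h1 : HasDerivAt (fun t : ℝ => (t - a.1) ^ 2) (2 * (z.1 - a.1)) z.1 := by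
    have := ((hasDerivAt_id z.1).sub_const a.1).fun_pow 2
    simpa using this
  have h2 := ((h1.add_const ((z.2 - a.2) ^ 2 / κ)).const_mul (-l)).exp
  refine h2.congr_deriv ?_
  ring

theorem EE_h2 (κ l : ℝ) (a z : ℝ × ℝ) :
    HasDerivAt (fun t : ℝ => EE κ l a (z.1, t)) (-2 * l * ((z.2 - a.2) / κ) * EE κ l a z) z.2 := by
  unfold EE
  have h1 : HasDerivAt (fun t : ℝ => (t - a.2) ^ 2) (2 * (z.2 - a.2)) z.2 := by
    have := ((hasDerivAt_id z.2).sub_const a.2).fun_pow 2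
    simpa using this
  have h2 := (((h1.div_const κ).const_add ((z.1 - a.1) ^ 2)).const_mul (-l)).exp
  refine h2.congr_deriv ?_
  ring

theorem bar_D1 (κ l ρ : ℝ) (a : ℝ × ℝ) :
    D1 (bar κ l ρ a) = fun z => -2 * l * (z.1 - a.1) * EE κ l a z := by
  funext z
  rw [D1_eq ((bar_contDiff κ l ρ a).contDiffAt.differentiableAt (by norm_num))]
  exact ((EE_h1 κ l a z).sub_const (Real.exp (-l * ρ))).deriv

theorem bar_D2 (κ l ρ : ℝ) (a : ℝ × ℝ) :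
    D2 (bar κ l ρ a) = fun z => -2 * l * ((z.2 - a.2) / κ) * EE κ l a z := by
  funext z
  rw [D2_eq ((bar_contDiff κ l ρ a).contDiffAt.differentiableAt (by norm_num))]
  exact ((EE_h2 κ l a z).sub_const (Real.exp (-l * ρ))).deriv

theorem bar_D11 (κ l ρ : ℝ) (a z : ℝ × ℝ) :
    D1 (D1 (bar κ l ρ a)) z = (-2 * l + 4 * l ^ 2 * (z.1 - a.1) ^ 2) * EE κ l a z := by
  have hd : Differentiable ℝ (D1 (bar κ l ρ a)) := by
    rw [bar_D1]; unfold EE; fun_prop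
  rw [D1_eq (hd z), bar_D1]
  have h1 : HasDerivAt (fun t : ℝ => -2 * l * (t - a.1)) (-2 * l) z.1 := by
    simpa using ((hasDerivAt_id z.1).sub_const a.1).const_mul (-2 * l)
  have h2 := h1.mul (EE_h1 κ l a z)
  have h3 : HasDerivAt (fun t : ℝ => -2 * l * (t - a.1) * EE κ l a (t, z.2))
      ((-2 * l + 4 * l ^ 2 * (z.1 - a.1) ^ 2) * EE κ l a z) z.1 := by
    refine h2.congr_deriv ?_
    simp only [Prod.mk.eta]
    ring
  exact h3.deriv

theorem bar_D22 (κ l ρ : ℝ) (a z : ℝ × ℝ) :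
    D2 (D2 (bar κ l ρ a)) z =
      (-2 * l / κ + 4 * l ^ 2 * ((z.2 - a.2) / κ) ^ 2) * EE κ l a z := by
  have hd : Differentiable ℝ (D2 (bar κ l ρ a)) := by
    rw [bar_D2]; unfold EE; fun_prop
  rw [D2_eq (hd z), bar_D2]
  have h1 : HasDerivAt (fun t : ℝ => -2 * l * ((t - a.2) / κ)) (-2 * l * (1 / κ)) z.2 := by
    simpa using (((hasDerivAt_id z.2).sub_const a.2).div_const κ).const_mul (-2 * l)
  have h2 := h1.mul (EE_h2 κ l a z)
  have h3 : HasDerivAt (fun t : ℝ => -2 * l * ((t - a.2) / κ) * EE κ l a (z.1, t))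
      ((-2 * l / κ + 4 * l ^ 2 * ((z.2 - a.2) / κ) ^ 2) * EE κ l a z) z.2 := by
    refine h2.congr_deriv ?_
    simp only [Prod.mk.eta]
    ring
  exact h3.deriv

theorem bar_sum {κ : ℝ} (hκ : 0 < κ) (l ρ : ℝ) (a z : ℝ × ℝ) :
    D1 (D1 (bar κ l ρ a)) z + κ * D2 (D2 (bar κ l ρ a)) z =
      4 * l * (l * NN κ (z - a) - 1) * EE κ l a z := by
  rw [bar_D11, bar_D22]
  simp only [NN, Prod.fst_sub, Prod.snd_sub]
  field_simp
  ring

theorem bar_ineq {κ : ℝ} (hκ : 0 < κ) {K ρ l : ℝ} (hK : 0 ≤ K) (hρ : 0 < ρ)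
    (hl : l = 4 * (2 + K * (1 + 1 / κ + 2 * ρ)) / ρ) {a z : ℝ × ℝ}
    (h1 : ρ / 4 ≤ NN κ (z - a)) (h2 : NN κ (z - a) ≤ ρ) :
    K * (|D1 (bar κ l ρ a) z| + |D2 (bar κ l ρ a) z|) <
      D1 (D1 (bar κ l ρ a)) z + κ * D2 (D2 (bar κ l ρ a)) z := by
  rw [bar_sum hκ, bar_D1, bar_D2]
  have hM : 0 < 1 + 1 / κ + 2 * ρ := by positivity
  have hl0 : 0 < l := by rw [hl]; positivity
  have hE := EE_pos κ l a z
  have hlρ : l * (ρ / 4) = 2 + K * (1 + 1 / κ + 2 * ρ) := by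
    rw [hl]; field_simp
  simp only [abs_mul, abs_of_pos hE, abs_of_pos hl0]
  have hx : |z.1 - a.1| ≤ 1 + ρ := by
    simp only [NN, Prod.fst_sub, Prod.snd_sub] at h2
    have h3 : 0 ≤ (z.2 - a.2) ^ 2 / κ := by positivity
    have := abs_nonneg (z.1 - a.1)
    nlinarith [sq_abs (z.1 - a.1), sq_nonneg (|z.1 - a.1| - 1)]
  have hy : |(z.2 - a.2) / κ| ≤ 1 / κ + ρ := by
    simp only [NN, Prod.fst_sub, Prod.snd_sub] at h2
    rw [abs_div, abs_of_pos hκ]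
    have h3 : 0 ≤ (z.1 - a.1) ^ 2 := sq_nonneg _
    have h4 : (z.2 - a.2) ^ 2 / κ ≤ ρ := by linarith
    have h5 : |z.2 - a.2| ≤ 1 + (z.2 - a.2) ^ 2 := by
      have := abs_nonneg (z.2 - a.2)
      nlinarith [sq_abs (z.2 - a.2), sq_nonneg (|z.2 - a.2| - 1)]
    calc |z.2 - a.2| / κ ≤ (1 + (z.2 - a.2) ^ 2) / κ := by
          apply div_le_div_of_nonneg_right h5 hκ.le
      _ = 1 / κ + (z.2 - a.2) ^ 2 / κ := by rw [add_div]
      _ ≤ 1 / κ + ρ := by linarith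
  have h7 : l * (ρ / 4) ≤ l * NN κ (z - a) := mul_le_mul_of_nonneg_left h1 hl0.le
  have habs : |(-2 : ℝ)| = 2 := by norm_num
  rw [habs]
  have h8 : K * (|z.1 - a.1| + |(z.2 - a.2) / κ|) ≤ K * (1 + 1 / κ + 2 * ρ) := by
    apply mul_le_mul_of_nonneg_left _ hK
    linarith
  have h9 : K * (|z.1 - a.1| + |(z.2 - a.2) / κ|) < 2 * (l * NN κ (z - a) - 1) := by
    have h10 : 0 ≤ K * (1 + 1 / κ + 2 * ρ) := by positivity
    linarith
  have h11 := mul_lt_mul_of_pos_left h9 (by positivity : 0 < 2 * l * EE κ l a z)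
  have e1 : 2 * l * EE κ l a z * (K * (|z.1 - a.1| + |(z.2 - a.2) / κ|)) =
      K * (2 * l * |z.1 - a.1| * EE κ l a z + 2 * l * |(z.2 - a.2) / κ| * EE κ l a z) := by ring
  have e2 : 2 * l * EE κ l a z * (2 * (l * NN κ (z - a) - 1)) =
      4 * l * (l * NN κ (z - a) - 1) * EE κ l a z := by ring
  rw [e1, e2] at h11
  exact h11

theorem pkSMP : GSMP := by
  intro κ hκ O ψ K₀ z₀ hO hψ hnn hK₀ hz₀ hψ₀
  -- replace K by its absolute value
  obtain ⟨K, hK, hKK⟩ : ∃ K : ℝ, 0 ≤ K ∧ ∀ z ∈ O, |D1 (D1 ψ) z + κ * D2 (D2 ψ) z| ≤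
      K * (|D1 ψ z| + |D2 ψ z|) := by
    refine ⟨|K₀|, abs_nonneg _, fun z hz => (hK₀ z hz).trans ?_⟩
    exact mul_le_mul_of_nonneg_right (le_abs_self _) (by positivity)
  by_contra hne
  rw [not_eventually] at hne
  obtain ⟨s, hs, hsO⟩ := NN_small hκ hO hz₀
  have hnb : ∀ᶠ z in 𝓝 z₀, NN κ (z - z₀) < s := by
    have h1 : Tendsto (fun z => NN κ (z - z₀)) (𝓝 z₀) (𝓝 (NN κ (z₀ - z₀))) :=
      (NN_cont κ z₀).tendsto z₀
    have h2 : NN κ (z₀ - z₀) = 0 := by simp [NN]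
    rw [h2] at h1
    exact h1.eventually (gt_mem_nhds hs)
  obtain ⟨z₁, hz₁ne, hz₁s⟩ := (hne.and_eventually hnb).exists
  have hsub : ∀ z : ℝ × ℝ, NN κ (z - z₀) ≤ 4 * s → z ∈ O := fun z hz => hsO hz
  have hz₁O : z₁ ∈ O := hsub z₁ (by linarith)
  have hψ₁ : 0 < ψ z₁ := lt_of_le_of_ne (hnn z₁ hz₁O) (Ne.symm hz₁ne)
  have hcont : ContinuousOn ψ O := hψ.continuousOn
  -- the zero set in the disc
  have hD : IsCompact {z : ℝ × ℝ | NN κ (z - z₀) ≤ 4 * s} := NN_compact hκ z₀ (4 * s)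
  have hcontD : ContinuousOn ψ {z : ℝ × ℝ | NN κ (z - z₀) ≤ 4 * s} := hcont.mono hsO
  have hZ : IsCompact ({z : ℝ × ℝ | NN κ (z - z₀) ≤ 4 * s} ∩ ψ ⁻¹' {0}) := by
    apply hD.of_isClosed_subset _ inter_subset_left
    exact hcontD.preimage_isClosed_of_isClosed hD.isClosed isClosed_singleton
  have hZne : ({z : ℝ × ℝ | NN κ (z - z₀) ≤ 4 * s} ∩ ψ ⁻¹' {0}).Nonempty := by
    refine ⟨z₀, ?_, hψ₀⟩
    have h2 : NN κ (z₀ - z₀) = 0 := by simp [NN]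
    show NN κ (z₀ - z₀) ≤ 4 * s
    linarith
  obtain ⟨z₂, hz₂, hmin₂⟩ := hZ.exists_isMinOn hZne (NN_cont κ z₁).continuousOn
  have hψ₂ : ψ z₂ = 0 := hz₂.2
  have hz₂D : NN κ (z₂ - z₀) ≤ 4 * s := hz₂.1
  have hz₂O : z₂ ∈ O := hsub z₂ hz₂D
  have hne12 : z₂ - z₁ ≠ 0 := by
    intro h
    rw [sub_eq_zero] at h
    rw [h] at hψ₂
    linarith
  obtain ⟨ρ, hρdef⟩ : ∃ ρ : ℝ, ρ = NN κ (z₂ - z₁) := ⟨_, rfl⟩
  have hρ : 0 < ρ := by rw [hρdef]; exact NN_pos hκ hne12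
  have hsymm : ∀ u v : ℝ × ℝ, NN κ (u - v) = NN κ (v - u) := by
    intro u v
    simp only [NN, Prod.fst_sub, Prod.snd_sub]
    ring
  have hρs : ρ < s := by
    have h1 : NN κ (z₂ - z₁) ≤ NN κ (z₀ - z₁) := by
      apply hmin₂
      refine ⟨?_, hψ₀⟩
      have h2 : NN κ (z₀ - z₀) = 0 := by simp [NN]
      show NN κ (z₀ - z₀) ≤ 4 * s
      linarith
    rw [hρdef]
    calc _ ≤ _ := h1
      _ = NN κ (z₁ - z₀) := hsymm _ _
      _ < s := hz₁s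
  have hin : ∀ z : ℝ × ℝ, NN κ (z - z₁) ≤ ρ → NN κ (z - z₀) ≤ 4 * s := by
    intro z hz
    have h1 := NN_add hκ (z - z₁) (z₁ - z₀)
    rw [sub_add_sub_cancel] at h1
    linarith
  have hpos : ∀ z : ℝ × ℝ, NN κ (z - z₁) < ρ → 0 < ψ z := by
    intro z hz
    have hzD := hin z hz.le
    refine lt_of_le_of_ne (hnn z (hsub z hzD)) ?_
    intro h
    have : NN κ (z₂ - z₁) ≤ NN κ (z - z₁) := hmin₂ ⟨hzD, h.symm⟩
    rw [← hρdef] at this
    linarith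
  -- inner minimum
  have hIc : IsCompact {z : ℝ × ℝ | NN κ (z - z₁) ≤ ρ / 4} := NN_compact hκ z₁ (ρ / 4)
  have hIne : ({z : ℝ × ℝ | NN κ (z - z₁) ≤ ρ / 4}).Nonempty := by
    refine ⟨z₁, ?_⟩
    have h2 : NN κ (z₁ - z₁) = 0 := by simp [NN]
    show NN κ (z₁ - z₁) ≤ ρ / 4
    linarith
  have hIsub : {z : ℝ × ℝ | NN κ (z - z₁) ≤ ρ / 4} ⊆ O := by
    intro z hz
    have hz' : NN κ (z - z₁) ≤ ρ / 4 := hz
    exact hsub z (hin z (by linarith))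
  obtain ⟨zi, hzi, hmini⟩ := hIc.exists_isMinOn hIne (hcont.mono hIsub)
  have hzi' : NN κ (zi - z₁) ≤ ρ / 4 := hzi
  have hc : 0 < ψ zi := hpos zi (by linarith)
  obtain ⟨c, hcdef⟩ : ∃ c : ℝ, c = ψ zi := ⟨_, rfl⟩
  rw [← hcdef] at hc
  have hcin : ∀ z : ℝ × ℝ, NN κ (z - z₁) ≤ ρ / 4 → c ≤ ψ z := by
    intro z hz
    rw [hcdef]
    exact hmini hz
  -- the barrier
  obtain ⟨l, hl⟩ : ∃ l : ℝ, l = 4 * (2 + K * (1 + 1 / κ + 2 * ρ)) / ρ := ⟨_, rfl⟩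
  have hl0 : 0 < l := by rw [hl]; positivity
  have hbval : ∀ z : ℝ × ℝ, bar κ l ρ z₁ z = Real.exp (-l * NN κ (z - z₁)) - Real.exp (-l * ρ) :=
    fun z => rfl
  have hA : IsCompact {z : ℝ × ℝ | ρ / 4 ≤ NN κ (z - z₁) ∧ NN κ (z - z₁) ≤ ρ} := by
    apply (NN_compact hκ z₁ ρ).of_isClosed_subset
    · exact (isClosed_le continuous_const (NN_cont κ z₁)).inter
        (isClosed_le (NN_cont κ z₁) continuous_const)
    · intro z hz
      exact hz.2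
  have hAne : ({z : ℝ × ℝ | ρ / 4 ≤ NN κ (z - z₁) ∧ NN κ (z - z₁) ≤ ρ}).Nonempty := by
    refine ⟨z₂, ?_, ?_⟩
    · show ρ / 4 ≤ NN κ (z₂ - z₁)
      rw [← hρdef]; linarith
    · show NN κ (z₂ - z₁) ≤ ρ
      rw [← hρdef]
  have hAsub : {z : ℝ × ℝ | ρ / 4 ≤ NN κ (z - z₁) ∧ NN κ (z - z₁) ≤ ρ} ⊆ O := by
    intro z hz
    exact hsub z (hin z hz.2)
  have hbC := bar_contDiff κ l ρ z₁
  have hfc : ContinuousOn (fun z => ψ z - c * bar κ l ρ z₁ z)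
      {z : ℝ × ℝ | ρ / 4 ≤ NN κ (z - z₁) ∧ NN κ (z - z₁) ≤ ρ} :=
    (hcont.mono hAsub).sub (continuousOn_const.mul hbC.continuous.continuousOn)
  obtain ⟨w, hw, hwmin⟩ := hA.exists_isMinOn hAne hfc
  have hwge : 0 ≤ ψ w - c * bar κ l ρ z₁ w := by
    by_contra hneg
    push Not at hneg
    have hwO : w ∈ O := hAsub hw
    have hw1 : ρ / 4 ≤ NN κ (w - z₁) := hw.1
    have hw2 : NN κ (w - z₁) ≤ ρ := hw.2
    have hwlt : NN κ (w - z₁) < ρ := by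
      refine lt_of_le_of_ne hw2 ?_
      intro h
      have hb0 : bar κ l ρ z₁ w = 0 := by rw [hbval, h]; ring
      rw [hb0] at hneg
      have := hnn w hwO
      linarith
    have hwgt : ρ / 4 < NN κ (w - z₁) := by
      refine lt_of_le_of_ne hw1 ?_
      intro h
      have h1 : c ≤ ψ w := hcin w h.symm.le
      have h2 : bar κ l ρ z₁ w ≤ 1 := by
        rw [hbval]
        have h3 : Real.exp (-l * NN κ (w - z₁)) ≤ 1 := by
          rw [Real.exp_le_one_iff]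
          have := NN_nonneg hκ (w - z₁)
          nlinarith
        have h4 := Real.exp_pos (-l * ρ)
        linarith
      nlinarith
    have hloc : IsLocalMin (fun z => ψ z - c * bar κ l ρ z₁ z) w := by
      have h1 : {z : ℝ × ℝ | ρ / 4 < NN κ (z - z₁) ∧ NN κ (z - z₁) < ρ} ∈ 𝓝 w := by
        apply IsOpen.mem_nhds
        · exact (isOpen_lt continuous_const (NN_cont κ z₁)).inter
            (isOpen_lt (NN_cont κ z₁) continuous_const)
        · exact ⟨hwgt, hwlt⟩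
      filter_upwards [h1] with z hz
      exact hwmin ⟨hz.1.le, hz.2.le⟩
    have hψw : ContDiffAt ℝ 2 ψ w := hψ.contDiffAt (hO.mem_nhds hwO)
    have hfw : ContDiffAt ℝ 2 (fun z => ψ z - c * bar κ l ρ z₁ z) w :=
      hψw.sub (contDiffAt_const.mul hbC.contDiffAt)
    have m1 := lmin (1, 0) hfw hloc
    have m2 := lmin (0, 1) hfw hloc
    have d1 := dsub (1, 0) c hψw hbC
    have d2 := dsub (0, 1) c hψw hbC
    rw [d1.1, d1.2] at m1
    rw [d2.1, d2.2] at m2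
    have e1 : D1 ψ w = c * D1 (bar κ l ρ z₁) w := by
      have := m1.1
      unfold D1
      linarith
    have e2 : D2 ψ w = c * D2 (bar κ l ρ z₁) w := by
      have := m2.1
      unfold D2
      linarith
    have e3 : c * D1 (D1 (bar κ l ρ z₁)) w ≤ D1 (D1 ψ) w := by
      have := m1.2
      have e : ∀ f : ℝ × ℝ → ℝ, D1 (D1 f) w = fderiv ℝ (fun z => fderiv ℝ f z (1, 0)) w (1, 0) :=
        fun f => rfl
      rw [e, e]
      linarith
    have e4 : c * D2 (D2 (bar κ l ρ z₁)) w ≤ D2 (D2 ψ) w := by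
      have := m2.2
      have e : ∀ f : ℝ × ℝ → ℝ, D2 (D2 f) w = fderiv ℝ (fun z => fderiv ℝ f z (0, 1)) w (0, 1) :=
        fun f => rfl
      rw [e, e]
      linarith
    have h6 := bar_ineq hκ hK hρ hl hw1 hw2
    have h7 := hKK w hwO
    rw [e1, e2, abs_mul, abs_mul, abs_of_pos hc] at h7
    have h8 := (abs_le.1 h7).2
    have h9 := mul_lt_mul_of_pos_left h6 hc
    have h10 := mul_le_mul_of_nonneg_left e4 hκ.le
    nlinarith
  have hge : ∀ z : ℝ × ℝ, ρ / 4 ≤ NN κ (z - z₁) → NN κ (z - z₁) ≤ ρ →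
      0 ≤ ψ z - c * bar κ l ρ z₁ z := by
    intro z h1 h2
    exact hwge.trans (hwmin ⟨h1, h2⟩)
  -- behaviour at z₂
  have hmin2 : IsLocalMin ψ z₂ := by
    filter_upwards [hO.mem_nhds hz₂O] with z hz
    rw [hψ₂]
    exact hnn z hz
  have hfd : fderiv ℝ ψ z₂ = 0 := hmin2.fderiv_eq_zero
  have hψd : HasFDerivAt ψ (0 : ℝ × ℝ →L[ℝ] ℝ) z₂ := by
    rw [← hfd]
    exact ((hψ.contDiffAt (hO.mem_nhds hz₂O)).differentiableAt (by norm_num)).hasFDerivAt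
  have hline : HasDerivAt (fun t : ℝ => z₂ + t • (z₁ - z₂)) (z₁ - z₂) 0 := by
    simpa using ((hasDerivAt_id (0 : ℝ)).smul_const (z₁ - z₂)).const_add z₂
  have hNline : ∀ t : ℝ, NN κ (z₂ + t • (z₁ - z₂) - z₁) = (1 - t) ^ 2 * ρ := by
    intro t
    have : z₂ + t • (z₁ - z₂) - z₁ = (1 - t) • (z₂ - z₁) := by
      ext <;> simp <;> ring
    rw [this, NN_smul, hρdef]
  have hψline : HasDerivAt (fun t : ℝ => ψ (z₂ + t • (z₁ - z₂))) 0 0 := by
    have h1 : HasFDerivAt ψ (0 : ℝ × ℝ →L[ℝ] ℝ) (z₂ + (0 : ℝ) • (z₁ - z₂)) := by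
      simpa using hψd
    have h2 := h1.comp_hasDerivAt (0 : ℝ) hline
    exact h2.congr_deriv (by simp)
  have hbline : HasDerivAt (fun t : ℝ => Real.exp (-l * ((1 - t) ^ 2 * ρ)) - Real.exp (-l * ρ))
      (2 * l * ρ * Real.exp (-l * ρ)) 0 := by
    have h1 : HasDerivAt (fun t : ℝ => (1 - t) ^ 2) (-2) 0 := by
      have := ((hasDerivAt_id (0 : ℝ)).const_sub 1).fun_pow 2
      simpa using this
    have h2 := (((h1.mul_const ρ).const_mul (-l)).exp).sub_const (Real.exp (-l * ρ))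
    refine h2.congr_deriv ?_
    simp
    ring
  have hg : HasDerivAt (fun t : ℝ => ψ (z₂ + t • (z₁ - z₂)) -
      c * (Real.exp (-l * ((1 - t) ^ 2 * ρ)) - Real.exp (-l * ρ)))
      (0 - c * (2 * l * ρ * Real.exp (-l * ρ))) 0 := hψline.sub (hbline.const_mul c)
  have hslope := hg.tendsto_slope_zero_right
  have hle : 0 ≤ 0 - c * (2 * l * ρ * Real.exp (-l * ρ)) := by
    apply ge_of_tendsto hslope
    have hIoo : Ioo (0 : ℝ) (1 / 2) ∈ 𝓝[>] (0 : ℝ) := Ioo_mem_nhdsGT (by norm_num)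
    filter_upwards [hIoo] with t ht
    have ht1 := ht.1
    have ht2 := ht.2
    have hq1 : ρ / 4 ≤ NN κ (z₂ + t • (z₁ - z₂) - z₁) := by
      rw [hNline]
      have : 1 / 4 ≤ (1 - t) ^ 2 := by nlinarith
      nlinarith
    have hq2 : NN κ (z₂ + t • (z₁ - z₂) - z₁) ≤ ρ := by
      rw [hNline]
      have : (1 - t) ^ 2 ≤ 1 := by nlinarith
      nlinarith
    have h1 := hge _ hq1 hq2
    rw [hbval, hNline] at h1
    simp only [zero_add, smul_eq_mul, zero_smul, add_zero, hψ₂, sub_zero, one_pow, one_mul, sub_self,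
      mul_zero]
    exact mul_nonneg (by positivity) h1
  have : 0 < c * (2 * l * ρ * Real.exp (-l * ρ)) := by positivity
  linarith

theorem pkSMPc (h : GSMP) : GSMPc := by
  intro κ hκ O ψ z₀ hO hconn hψ hnn hL hz₀ hψ₀ z hz
  have hK : ∀ z ∈ O, |D1 (D1 ψ) z + κ * D2 (D2 ψ) z| ≤ |1 - κ| * (|D1 ψ z| + |D2 ψ z|) := by
    intro z hz
    have h1 := hL z hz
    unfold LL at h1
    have h2 : D1 (D1 ψ) z + κ * D2 (D2 ψ) z = (1 - κ) * D1 ψ z := by linarith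
    rw [h2, abs_mul]
    apply mul_le_mul_of_nonneg_left _ (abs_nonneg _)
    have := abs_nonneg (D2 ψ z)
    linarith
  have hopen : IsOpen {z | z ∈ O ∧ ψ z = 0} := by
    rw [isOpen_iff_mem_nhds]
    intro y hy
    have h1 := h κ hκ O ψ |1 - κ| y hO hψ hnn hK hy.1 hy.2
    filter_upwards [h1, hO.mem_nhds hy.1] with x hx hxO
    exact ⟨hxO, hx⟩
  have hopen2 : IsOpen (O ∩ ψ ⁻¹' {0}ᶜ) :=
    hψ.continuousOn.isOpen_inter_preimage hO isOpen_compl_singleton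
  by_contra hne
  obtain ⟨x, hx, h1, h2⟩ := hconn _ _ hopen hopen2 (by
    intro y hy
    by_cases h0 : ψ y = 0
    · exact Or.inl ⟨hy, h0⟩
    · exact Or.inr ⟨hy, h0⟩) ⟨z₀, hz₀, hz₀, hψ₀⟩ ⟨z, hz, hz, hne⟩
  exact h2.2 h1.2

end Pool.Agent.Helper73.PC
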