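import Mathlib
import Pool.Agent.Helper73.PC.SMP

/-!
Hopf's boundary lemma (packet HOPF of helper25, MP_576c25_an).
-/

set_option autoImplicit false

open MeasureTheory Set Filter Topology
open scoped ContDiff Real

noncomputable section

namespace Pool.Agent.Helper73.PC

open Pool.Agent.Helper25.PCap

/-- the barrier comparison on an annulus -/
theorem barrier_ge {κ : ℝ} (hκ : 0 < κ) {O : Set (ℝ × ℝ)} {ψ : ℝ × ℝ → ℝ} {K : ℝ} (hK : 0 ≤ K)
    (hO : IsOpen O) (hψ : ContDiffOn ℝ 2 ψ O)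
    (hKK : ∀ z ∈ O, |D1 (D1 ψ) z + κ * D2 (D2 ψ) z| ≤ K * (|D1 ψ z| + |D2 ψ z|))
    {z₁ : ℝ × ℝ} {ρ : ℝ} (hρ : 0 < ρ) (hsub : ∀ z, NN κ (z - z₁) ≤ ρ → z ∈ O)
    (hnn : ∀ z, NN κ (z - z₁) ≤ ρ → 0 ≤ ψ z) (hpos : ∀ z, NN κ (z - z₁) ≤ ρ / 4 → 0 < ψ z) :
    ∃ c l : ℝ, 0 < c ∧ 0 < l ∧ ∀ z, ρ / 4 ≤ NN κ (z - z₁) → NN κ (z - z₁) ≤ ρ →
      0 ≤ ψ z - c * (Real.exp (-l * NN κ (z - z₁)) - Real.exp (-l * ρ)) := by
  have hcont : ContinuousOn ψ O := hψ.continuousOn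
  have hIc : IsCompact {z : ℝ × ℝ | NN κ (z - z₁) ≤ ρ / 4} := NN_compact hκ z₁ (ρ / 4)
  have hIne : ({z : ℝ × ℝ | NN κ (z - z₁) ≤ ρ / 4}).Nonempty := by
    refine ⟨z₁, ?_⟩
    have h2 : NN κ (z₁ - z₁) = 0 := by simp [NN]
    show NN κ (z₁ - z₁) ≤ ρ / 4
    linarith
  have hIsub : {z : ℝ × ℝ | NN κ (z - z₁) ≤ ρ / 4} ⊆ O := by
    intro z hz
    have hz' : NN κ (z - z₁) ≤ ρ / 4 := hz
    exact hsub z (by linarith)
  obtain ⟨zi, hzi, hmini⟩ := hIc.exists_isMinOn hIne (hcont.mono hIsub)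
  have hzi' : NN κ (zi - z₁) ≤ ρ / 4 := hzi
  have hc : 0 < ψ zi := hpos zi hzi'
  obtain ⟨c, hcdef⟩ : ∃ c : ℝ, c = ψ zi := ⟨_, rfl⟩
  rw [← hcdef] at hc
  have hcin : ∀ z : ℝ × ℝ, NN κ (z - z₁) ≤ ρ / 4 → c ≤ ψ z := by
    intro z hz
    rw [hcdef]
    exact hmini hz
  obtain ⟨l, hl⟩ : ∃ l : ℝ, l = 4 * (2 + K * (1 + 1 / κ + 2 * ρ)) / ρ := ⟨_, rfl⟩
  have hl0 : 0 < l := by rw [hl]; positivity
  have hbval : ∀ z : ℝ × ℝ, bar κ l ρ z₁ z = Real.exp (-l * NN κ (z - z₁)) - Real.exp (-l * ρ) :=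
    fun z => rfl
  refine ⟨c, l, hc, hl0, ?_⟩
  by_cases hAne : ({z : ℝ × ℝ | ρ / 4 ≤ NN κ (z - z₁) ∧ NN κ (z - z₁) ≤ ρ}).Nonempty
  swap
  · intro z h1 h2
    exact absurd ⟨z, h1, h2⟩ hAne
  have hA : IsCompact {z : ℝ × ℝ | ρ / 4 ≤ NN κ (z - z₁) ∧ NN κ (z - z₁) ≤ ρ} := by
    apply (NN_compact hκ z₁ ρ).of_isClosed_subset
    · exact (isClosed_le continuous_const (NN_cont κ z₁)).inter
        (isClosed_le (NN_cont κ z₁) continuous_const)
    · intro z hz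
      exact hz.2
  have hAsub : {z : ℝ × ℝ | ρ / 4 ≤ NN κ (z - z₁) ∧ NN κ (z - z₁) ≤ ρ} ⊆ O := by
    intro z hz
    exact hsub z hz.2
  have hbC := bar_contDiff κ l ρ z₁
  have hfc : ContinuousOn (fun z => ψ z - c * bar κ l ρ z₁ z)
      {z : ℝ × ℝ | ρ / 4 ≤ NN κ (z - z₁) ∧ NN κ (z - z₁) ≤ ρ} :=
    (hcont.mono hAsub).sub (continuousOn_const.mul hbC.continuous.continuousOn)
  obtain ⟨w, hw, hwmin⟩ := hA.exists_isMinOn hAne hfc
  have hwge : 0 ≤ ψ w - c * bar κ l ρ z₁ w := by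
    by_contra hneg
    push Not at hneg
    have hwO : w ∈ O := hAsub hw
    have hw1 : ρ / 4 ≤ NN κ (w - z₁) := hw.1
    have hw2 : NN κ (w - z₁) ≤ ρ := hw.2
    have hwlt : NN κ (w - z₁) < ρ := by
      refine lt_of_le_of_ne hw2 ?_
      intro h
      have hb0 : bar κ l ρ z₁ w = 0 := by rw [hbval, h]; ring
      rw [hb0] at hneg
      have := hnn w hw2
      linarith
    have hwgt : ρ / 4 < NN κ (w - z₁) := by
      refine lt_of_le_of_ne hw1 ?_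
      intro h
      have h1 : c ≤ ψ w := hcin w h.symm.le
      have h2 : bar κ l ρ z₁ w ≤ 1 := by
        rw [hbval]
        have h3 : Real.exp (-l * NN κ (w - z₁)) ≤ 1 := by
          rw [Real.exp_le_one_iff]
          have := NN_nonneg hκ (w - z₁)
          nlinarith
        have h4 := Real.exp_pos (-l * ρ)
        linarith
      nlinarith
    have hloc : IsLocalMin (fun z => ψ z - c * bar κ l ρ z₁ z) w := by
      have h1 : {z : ℝ × ℝ | ρ / 4 < NN κ (z - z₁) ∧ NN κ (z - z₁) < ρ} ∈ 𝓝 w := by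
        apply IsOpen.mem_nhds
        · exact (isOpen_lt continuous_const (NN_cont κ z₁)).inter
            (isOpen_lt (NN_cont κ z₁) continuous_const)
        · exact ⟨hwgt, hwlt⟩
      filter_upwards [h1] with z hz
      exact hwmin ⟨hz.1.le, hz.2.le⟩
    have hψw : ContDiffAt ℝ 2 ψ w := hψ.contDiffAt (hO.mem_nhds hwO)
    have hfw : ContDiffAt ℝ 2 (fun z => ψ z - c * bar κ l ρ z₁ z) w :=
      hψw.sub (contDiffAt_const.mul hbC.contDiffAt)
    have m1 := lmin (1, 0) hfw hloc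
    have m2 := lmin (0, 1) hfw hloc
    have d1 := dsub (1, 0) c hψw hbC
    have d2 := dsub (0, 1) c hψw hbC
    rw [d1.1, d1.2] at m1
    rw [d2.1, d2.2] at m2
    have e1 : D1 ψ w = c * D1 (bar κ l ρ z₁) w := by
      have := m1.1
      unfold D1
      linarith
    have e2 : D2 ψ w = c * D2 (bar κ l ρ z₁) w := by
      have := m2.1
      unfold D2
      linarith
    have e3 : c * D1 (D1 (bar κ l ρ z₁)) w ≤ D1 (D1 ψ) w := by
      have := m1.2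
      have e : ∀ f : ℝ × ℝ → ℝ, D1 (D1 f) w = fderiv ℝ (fun z => fderiv ℝ f z (1, 0)) w (1, 0) :=
        fun f => rfl
      rw [e, e]
      linarith
    have e4 : c * D2 (D2 (bar κ l ρ z₁)) w ≤ D2 (D2 ψ) w := by
      have := m2.2
      have e : ∀ f : ℝ × ℝ → ℝ, D2 (D2 f) w = fderiv ℝ (fun z => fderiv ℝ f z (0, 1)) w (0, 1) :=
        fun f => rfl
      rw [e, e]
      linarith
    have h6 := bar_ineq hκ hK hρ hl hw1 hw2
    have h7 := hKK w hwO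
    rw [e1, e2, abs_mul, abs_mul, abs_of_pos hc] at h7
    have h8 := (abs_le.1 h7).2
    have h9 := mul_lt_mul_of_pos_left h6 hc
    have h10 := mul_le_mul_of_nonneg_left e4 hκ.le
    nlinarith
  intro z h1 h2
  have := hwge.trans (hwmin (⟨h1, h2⟩ : z ∈ {z : ℝ × ℝ | ρ / 4 ≤ NN κ (z - z₁) ∧ NN κ (z - z₁) ≤ ρ}))
  exact this

theorem pkHopf : GHopf := by
  intro κ hκ t₀ r v K₀ hr hv hK₀ hvpos hv0
  obtain ⟨K, hK, hKK⟩ : ∃ K : ℝ, 0 ≤ K ∧ ∀ z ∈ box t₀ r, |D1 (D1 v) z + κ * D2 (D2 v) z| ≤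
      K * (|D1 v z| + |D2 v z|) := by
    refine ⟨|K₀|, abs_nonneg _, fun z hz => (hK₀ z hz).trans ?_⟩
    exact mul_le_mul_of_nonneg_right (le_abs_self _) (by positivity)
  have hO : IsOpen (box t₀ r) := by
    unfold box
    apply IsOpen.and
    · exact isOpen_lt (by fun_prop) continuous_const
    · exact isOpen_lt (by fun_prop) continuous_const
  obtain ⟨a, ha⟩ : ∃ a : ℝ, a = r * κ / (2 * (1 + κ)) := ⟨_, rfl⟩
  have ha0 : 0 < a := by rw [ha]; positivity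
  have ha2 : 2 * a < r := by
    rw [ha, ← mul_div_assoc, div_lt_iff₀ (by positivity)]
    nlinarith [mul_pos hr hκ]
  have haκ : a ^ 2 / κ < r ^ 2 := by
    rw [div_lt_iff₀ hκ, ha, div_pow, div_lt_iff₀ (by positivity)]
    have : 0 < r ^ 2 * κ := by positivity
    nlinarith [mul_pos this hκ, mul_pos (mul_pos this hκ) hκ]
  obtain ⟨z₁, hz₁⟩ : ∃ z₁ : ℝ × ℝ, z₁ = (t₀, a) := ⟨_, rfl⟩
  obtain ⟨ρ, hρdef⟩ : ∃ ρ : ℝ, ρ = a ^ 2 / κ := ⟨_, rfl⟩
  have hρ : 0 < ρ := by rw [hρdef]; positivity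
  have hN : ∀ z : ℝ × ℝ, NN κ (z - z₁) = (z.1 - t₀) ^ 2 + (z.2 - a) ^ 2 / κ := by
    intro z
    rw [hz₁]
    simp [NN]
  have hgeo : ∀ z : ℝ × ℝ, NN κ (z - z₁) ≤ ρ → z ∈ box t₀ r ∧ (0 < z.2 ∨ z = (t₀, 0)) := by
    intro z hz
    rw [hN, hρdef] at hz
    have h1 : 0 ≤ (z.2 - a) ^ 2 / κ := by positivity
    have h2 : (z.1 - t₀) ^ 2 < r ^ 2 := by linarith
    have h3 : (z.2 - a) ^ 2 / κ ≤ a ^ 2 / κ := by nlinarith [sq_nonneg (z.1 - t₀)]
    have h4 : (z.2 - a) ^ 2 ≤ a ^ 2 := by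
      rwa [div_le_div_iff_of_pos_right hκ] at h3
    have h5 : |z.2 - a| ≤ a := abs_le_of_sq_le_sq h4 ha0.le
    rw [abs_le] at h5
    refine ⟨⟨abs_lt_of_sq_lt_sq h2 hr.le, ?_⟩, ?_⟩
    · rw [abs_lt]
      constructor <;> linarith
    · rcases lt_or_eq_of_le (show 0 ≤ z.2 by linarith) with h | h
      · exact Or.inl h
      · right
        rw [← h] at hz
        have h6 : (0 - a) ^ 2 / κ = a ^ 2 / κ := by ring
        rw [h6] at hz
        have h7 : (z.1 - t₀) ^ 2 = 0 := le_antisymm (by linarith) (sq_nonneg _)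
        have h8 : z.1 - t₀ = 0 := by simpa using h7
        exact Prod.ext (by simpa [sub_eq_zero] using h8) h.symm
  have hnn : ∀ z, NN κ (z - z₁) ≤ ρ → 0 ≤ v z := by
    intro z hz
    rcases hgeo z hz with ⟨hb, h | h⟩
    · exact (hvpos z hb h).le
    · rw [h, hv0]
  have hpos : ∀ z, NN κ (z - z₁) ≤ ρ / 4 → 0 < v z := by
    intro z hz
    rcases hgeo z (by linarith) with ⟨hb, h | h⟩
    · exact hvpos z hb h
    · exfalso
      rw [h, hN] at hz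
      simp only [sub_self] at hz
      rw [hρdef] at hz
      have h6 : (0 : ℝ) ^ 2 + (0 - a) ^ 2 / κ = a ^ 2 / κ := by ring
      rw [h6] at hz
      rw [← hρdef] at hz
      linarith
  obtain ⟨c, l, hc, hl, hge⟩ := barrier_ge hκ hK hO hv hKK hρ (fun z hz => (hgeo z hz).1) hnn hpos
  have hmem : (t₀, (0 : ℝ)) ∈ box t₀ r := by
    simp only [box]
    constructor <;> simp [hr]
  have hvd : DifferentiableAt ℝ v (t₀, 0) :=
    (hv.contDiffAt (hO.mem_nhds hmem)).differentiableAt (by norm_num)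
  have hline : HasDerivAt (fun t : ℝ => ((t₀, t) : ℝ × ℝ)) (0, 1) 0 :=
    (hasDerivAt_const (0 : ℝ) t₀).prodMk (hasDerivAt_id (0 : ℝ))
  have hvline : HasDerivAt (fun t : ℝ => v (t₀, t)) (D2 v (t₀, 0)) 0 :=
    hvd.hasFDerivAt.comp_hasDerivAt (0 : ℝ) hline
  have hbline : HasDerivAt (fun t : ℝ => Real.exp (-l * ((t - a) ^ 2 / κ)) - Real.exp (-l * ρ))
      (2 * l * (a / κ) * Real.exp (-l * ρ)) 0 := by
    have h1 : HasDerivAt (fun t : ℝ => (t - a) ^ 2) (-(2 * a)) 0 := by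
      have := ((hasDerivAt_id (0 : ℝ)).sub_const a).fun_pow 2
      simpa using this
    have h2 := (((h1.div_const κ).const_mul (-l)).exp).sub_const (Real.exp (-l * ρ))
    refine h2.congr_deriv ?_
    have h3 : (0 - a) ^ 2 / κ = ρ := by rw [hρdef]; ring
    rw [h3]
    ring
  have hg : HasDerivAt (fun t : ℝ => v (t₀, t) -
      c * (Real.exp (-l * ((t - a) ^ 2 / κ)) - Real.exp (-l * ρ)))
      (D2 v (t₀, 0) - c * (2 * l * (a / κ) * Real.exp (-l * ρ))) 0 :=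
    hvline.sub (hbline.const_mul c)
  have hslope := hg.tendsto_slope_zero_right
  have hle : 0 ≤ D2 v (t₀, 0) - c * (2 * l * (a / κ) * Real.exp (-l * ρ)) := by
    apply ge_of_tendsto hslope
    have hIoo : Ioo (0 : ℝ) (a / 2) ∈ 𝓝[>] (0 : ℝ) := Ioo_mem_nhdsGT (by positivity)
    filter_upwards [hIoo] with t ht
    have ht1 := ht.1
    have ht2 := ht.2
    have hNt : NN κ ((t₀, t) - z₁) = (t - a) ^ 2 / κ := by
      rw [hN]
      simp
    have hq1 : ρ / 4 ≤ NN κ ((t₀, t) - z₁) := by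
      rw [hNt, hρdef, div_div, div_le_div_iff₀ (by positivity) hκ]
      have : a ^ 2 / 4 ≤ (t - a) ^ 2 := by nlinarith
      nlinarith
    have hq2 : NN κ ((t₀, t) - z₁) ≤ ρ := by
      rw [hNt, hρdef, div_le_div_iff_of_pos_right hκ]
      nlinarith
    have h1 := hge _ hq1 hq2
    rw [hNt] at h1
    have h3 : (0 - a) ^ 2 / κ = ρ := by rw [hρdef]; ring
    simp only [zero_add, smul_eq_mul, hv0, h3, sub_self, mul_zero, sub_zero]
    exact mul_nonneg (by positivity) h1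
  have : 0 < c * (2 * l * (a / κ) * Real.exp (-l * ρ)) := by positivity
  linarith

end Pool.Agent.Helper73.PC
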